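import Mathlib

set_option autoImplicit false

namespace Pool.Agent.FZ

/-- The Hilbert space ℓ²(ℤ). -/
abbrev Ell2 : Type := lp (fun _ : ℤ => ℂ) 2

/-- The n-th coordinate of a vector of ℓ²(ℤ). -/
noncomputable def coord (x : Ell2) (n : ℤ) : ℂ := x n

/-- The points of the spectrum of a bounded operator `T` on the complex normed space `E` such that
`P x (T x)` holds for all `x`. -/
def specOfGraph {E : Type} [NormedAddCommGroup E] [NormedSpace ℂ E] (P : E → E → Prop) : Set ℂ :=
  {z : ℂ | ∃ T : E →L[ℂ] E, (∀ x, P x (T x)) ∧ z ∈ spectrum ℂ T}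

/-- `y` is the image of `x` under the hopping operator with coefficients `c`:
y(n) = x(n+1) + c(n) x(n-1). -/
def HopGraph (c : ℤ → ℂ) (x y : Ell2) : Prop :=
  ∀ n : ℤ, coord y n = coord x (n + 1) + c n * coord x (n - 1)

/-- The spectrum of the hopping operator with coefficients `c` on ℓ²(ℤ). -/
def hopSpec (c : ℤ → ℂ) : Set ℂ := specOfGraph (HopGraph c)

/-- `c` takes only the values `1` and `-1`. -/
def IsSignSeq (c : ℤ → ℂ) : Prop := ∀ n, c n = 1 ∨ c n = -1

/-- `c` is periodic. -/
def IsPer (c : ℤ → ℂ) : Prop := ∃ p : ℕ, 0 < p ∧ ∀ n : ℤ, c (n + (p : ℤ)) = c n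

/-- The union of the spectra of all hopping operators with sign coefficients. -/
def hoppingSpectrum : Set ℂ := {z : ℂ | ∃ c : ℤ → ℂ, IsSignSeq c ∧ z ∈ hopSpec c}

/-- The periodic part: the closure of the union of the spectra of the hopping operators with
periodic sign coefficients. -/
def periodicPart : Set ℂ := closure {z : ℂ | ∃ c : ℤ → ℂ, IsSignSeq c ∧ IsPer c ∧ z ∈ hopSpec c}

end Pool.Agent.FZ
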