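import Mathlib

set_option autoImplicit false
set_option maxHeartbeats 4000000

noncomputable section

namespace Pool.Agent.FZ

/-- First-passage argument. -/
lemma first_passage {f : ℤ → ℝ} (hpos : ∀ k, 0 < f k) {κ : ℝ} (hκ : 1 ≤ κ)
    (h1 : ∀ k, f (k + 1) ≤ κ * f k) (h2 : ∀ k, f k ≤ κ * f (k + 1)) {F : ℝ} (hF : ∀ k, f k ≤ F)
    (hL : ∀ δ : ℝ, 0 < δ → ∃ L : ℕ, ∀ (i : ℤ) (n : ℕ),
      (∀ k : ℕ, k ≤ n → δ * f i ≤ f (i + k) ∧ δ * f (i + n) ≤ f (i + k)) → n ≤ L) : False := by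
  have hκ0 : 0 < κ := by linarith
  have hF0 : 0 < F := (hpos 0).trans_le (hF 0)
  by_cases c1 : ∃ m : ℝ, 0 < m ∧ ∀ k : ℕ, m ≤ f k
  · obtain ⟨m, hm, hk⟩ := c1
    obtain ⟨L, hL⟩ := hL (m / F) (by positivity)
    have := hL 0 (L + 1) (by
      intro k _
      rw [zero_add]
      have e : ∀ a, m / F * f a ≤ m := by
        intro a
        rw [div_mul_eq_mul_div, div_le_iff₀ hF0]
        exact mul_le_mul_of_nonneg_left (hF a) hm.le
      exact ⟨(e _).trans (hk k), (e _).trans (hk k)⟩)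
    omega
  by_cases c2 : ∃ m : ℝ, 0 < m ∧ ∀ k : ℕ, m ≤ f (-(k : ℤ))
  · obtain ⟨m, hm, hk⟩ := c2
    obtain ⟨L, hL⟩ := hL (m / F) (by positivity)
    have := hL (-((L + 1 : ℕ) : ℤ)) (L + 1) (by
      intro k hkn
      have e : ∀ a, m / F * f a ≤ m := by
        intro a
        rw [div_mul_eq_mul_div, div_le_iff₀ hF0]
        exact mul_le_mul_of_nonneg_left (hF a) hm.le
      have e2 : -((L + 1 : ℕ) : ℤ) + (k : ℤ) = -((L + 1 - k : ℕ) : ℤ) := by
        push_cast [Nat.cast_sub hkn]; ring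
      rw [e2]
      exact ⟨(e _).trans (hk _), (e _).trans (hk _)⟩)
    omega
  push Not at c1 c2
  obtain ⟨L, hL⟩ := hL (1 / κ) (by positivity)
  set ε : ℝ := f 0 / κ ^ (L + 1) with hε
  have hf0 := hpos 0
  have hεpos : 0 < ε := by positivity
  have low1 : ∀ k : ℕ, f 0 ≤ κ ^ k * f k := by
    intro k
    induction k with
    | zero => simp
    | succ k ih =>
      calc f 0 ≤ κ ^ k * f k := ih
        _ ≤ κ ^ k * (κ * f ((k : ℤ) + 1)) := by gcongr; exact h2 k
        _ = κ ^ (k + 1) * f ((k + 1 : ℕ) : ℤ) := by push_cast; ring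
  have low2 : ∀ k : ℕ, f 0 ≤ κ ^ k * f (-(k : ℤ)) := by
    intro k
    induction k with
    | zero => simp
    | succ k ih =>
      have e := h1 (-((k + 1 : ℕ) : ℤ))
      have e2 : -((k + 1 : ℕ) : ℤ) + 1 = -(k : ℤ) := by push_cast; ring
      rw [e2] at e
      calc f 0 ≤ κ ^ k * f (-(k : ℤ)) := ih
        _ ≤ κ ^ k * (κ * f (-((k + 1 : ℕ) : ℤ))) := by gcongr
        _ = κ ^ (k + 1) * f (-((k + 1 : ℕ) : ℤ)) := by ring
  have hlow : ∀ (k : ℕ) (a : ℝ), 0 < a → f 0 ≤ κ ^ k * a → k ≤ L + 1 → ε ≤ a := by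
    intro k a ha hka hk
    rw [hε, div_le_iff₀ (by positivity)]
    calc f 0 ≤ κ ^ k * a := hka
      _ ≤ κ ^ (L + 1) * a := by gcongr
      _ = a * κ ^ (L + 1) := by ring
  classical
  have e1 : ∃ k : ℕ, f k < ε := c1 ε hεpos
  have e2 : ∃ k : ℕ, f (-(k : ℤ)) < ε := c2 ε hεpos
  set j := Nat.find e1 with hj
  set i := Nat.find e2 with hi
  have hjs : f j < ε := Nat.find_spec e1
  have his : f (-(i : ℤ)) < ε := Nat.find_spec e2
  have hjm : ∀ k : ℕ, k < j → ε ≤ f k := fun k hk => not_lt.mp (Nat.find_min e1 hk)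
  have him : ∀ k : ℕ, k < i → ε ≤ f (-(k : ℤ)) := fun k hk => not_lt.mp (Nat.find_min e2 hk)
  have hjL : L + 1 < j := by
    by_contra hcon
    push Not at hcon
    have := hlow j (f j) (hpos _) (low1 j) hcon
    linarith
  have hiL : L + 1 < i := by
    by_contra hcon
    push Not at hcon
    have := hlow i (f (-(i : ℤ))) (hpos _) (low2 i) hcon
    linarith
  have hjlow : ε ≤ κ * f j := by
    have a1 := hjm (j - 1) (by omega)
    have a2 := h2 ((j - 1 : ℕ) : ℤ)
    have a3 := h1 ((j - 1 : ℕ) : ℤ)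
    have a4 : ((j - 1 : ℕ) : ℤ) + 1 = (j : ℤ) := by omega
    rw [a4] at a2
    linarith
  have hilow : ε ≤ κ * f (-(i : ℤ)) := by
    have a1 := him (i - 1) (by omega)
    have a2 := h1 (-(i : ℤ))
    have a4 : -(i : ℤ) + 1 = -((i - 1 : ℕ) : ℤ) := by omega
    rw [a4] at a2
    linarith
  have hall : ∀ k : ℤ, -(i : ℤ) ≤ k → k ≤ j → ε ≤ κ * f k := by
    intro k hk1 hk2
    have hmono : ∀ a, ε ≤ f a → ε ≤ κ * f a := by
      intro a ha
      have := hpos a
      nlinarith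
    rcases eq_or_lt_of_le hk1 with h | h
    · rw [← h]; exact hilow
    rcases eq_or_lt_of_le hk2 with h' | h'
    · rw [h']; exact hjlow
    apply hmono
    rcases le_or_gt 0 k with h0 | h0
    · lift k to ℕ using h0
      exact hjm k (by omega)
    · have e : k = -((-k).toNat : ℤ) := by omega
      rw [e]
      exact him _ (by omega)
  have := hL (-(i : ℤ)) (i + j) (by
    intro k hk
    have a1 := hall (-(i : ℤ) + k) (by omega) (by omega)
    have a2 : -(i : ℤ) + ((i + j : ℕ) : ℤ) = j := by push_cast; ring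
    rw [a2, one_div, inv_mul_eq_div, inv_mul_eq_div, div_le_iff₀ hκ0, div_le_iff₀ hκ0]
    constructor <;> nlinarith)
  omega

/-- Growth estimate for solutions in terms of a given one. -/
lemma growth {l : ℂ} {b x y p q : ℕ → ℂ} (hb : ∀ k, b k = 1 ∨ b k = -1)
    (hx : ∀ k, x (k + 1) = l * x k - b k * y k) (hy : ∀ k, y (k + 1) = x k)
    (hp : ∀ k, p (k + 1) = l * p k - b k * q k) (hq : ∀ k, q (k + 1) = p k)
    {n : ℕ} {δ : ℝ} (hδ : 0 < δ) (hpos : ∀ k, 0 < ‖x k‖ + ‖y k‖)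
    (h0 : ∀ k, k ≤ n → δ * (‖x 0‖ + ‖y 0‖) ≤ ‖x k‖ + ‖y k‖)
    (hn : ∀ k, k ≤ n → δ * (‖x n‖ + ‖y n‖) ≤ ‖x k‖ + ‖y k‖) :
    ‖p n‖ + ‖q n‖ ≤ (4 / δ + 4 * (‖l‖ + 1) / δ ^ 2 * n) * (‖p 0‖ + ‖q 0‖) := by
  set f : ℕ → ℝ := fun k => ‖x k‖ + ‖y k‖ with hf
  set G : ℕ → ℝ := fun k => ‖x k‖ ^ 2 + ‖y k‖ ^ 2 with hG
  have hGf : ∀ k, f k ^ 2 / 2 ≤ G k := by
    intro k
    simp only [hf, hG]
    nlinarith [sq_nonneg (‖x k‖ - ‖y k‖)]
  have hGpos : ∀ k, 0 < G k := by
    intro k
    have := hpos k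
    have h := hGf k
    have : 0 < f k := hpos k
    have : 0 < f k ^ 2 / 2 := by positivity
    linarith
  have hGne : ∀ k, (G k : ℂ) ≠ 0 := by
    intro k
    exact_mod_cast (hGpos k).ne'
  have hGc : ∀ k, (G k : ℂ) = x k * (starRingEnd ℂ) (x k) + y k * (starRingEnd ℂ) (y k) := by
    intro k
    simp only [hG]
    rw [Complex.mul_conj', Complex.mul_conj']
    push_cast
    ring
  set W : ℕ → ℂ := fun k => p k * y k - q k * x k with hW
  set C : ℕ → ℂ := fun k => (p k * (starRingEnd ℂ) (x k) + q k * (starRingEnd ℂ) (y k)) / G k with hC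
  have hW1 : ∀ k, W (k + 1) = b k * W k := by
    intro k
    simp only [hW]
    rw [hx, hy, hp, hq]
    ring
  have hb1 : ∀ k, ‖b k‖ = 1 := by
    intro k
    rcases hb k with h | h <;> rw [h] <;> simp
  have hWn : ∀ k, ‖W k‖ = ‖W 0‖ := by
    intro k
    induction k with
    | zero => rfl
    | succ k ih => rw [hW1, norm_mul, hb1, one_mul, ih]
  have hpk : ∀ k, p k = C k * x k + W k * (starRingEnd ℂ) (y k) / G k := by
    intro k
    simp only [hC, hW]
    have := hGne k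
    field_simp
    rw [hGc]
    ring
  have hqk : ∀ k, q k = C k * y k - W k * (starRingEnd ℂ) (x k) / G k := by
    intro k
    simp only [hC, hW]
    have := hGne k
    field_simp
    rw [hGc]
    ring
  have hCstep : ∀ k, C (k + 1) = C k + W k / (G k * G (k + 1)) *
      ((l * (starRingEnd ℂ) (y k) + b k * (starRingEnd ℂ) (x k)) * (starRingEnd ℂ) (x (k + 1)) +
        (starRingEnd ℂ) (y k) * (starRingEnd ℂ) (y (k + 1))) := by
    intro k
    have e1 : p (k + 1) = C k * x (k + 1) + W k / G k *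
        (l * (starRingEnd ℂ) (y k) + b k * (starRingEnd ℂ) (x k)) := by
      rw [hp, hx]
      conv_lhs => rw [hpk k, hqk k]
      ring
    have e2 : q (k + 1) = C k * y (k + 1) + W k / G k * (starRingEnd ℂ) (y k) := by
      rw [hq, hy]
      conv_lhs => rw [hpk k]
      ring
    have e3 : C (k + 1) = (p (k + 1) * (starRingEnd ℂ) (x (k + 1)) +
      q (k + 1) * (starRingEnd ℂ) (y (k + 1))) / G (k + 1) := rfl
    rw [e3, e1, e2]
    have g1 := hGne k
    have g2 := hGne (k + 1)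
    have g3 := hGc (k + 1)
    field_simp
    rw [g3]
    ring
  have hfpos : ∀ k, 0 < f k := hpos
  have hstep : ∀ k, ‖C (k + 1)‖ ≤ ‖C k‖ + 4 * (‖l‖ + 1) * ‖W 0‖ / (f k * f (k + 1)) := by
    intro k
    rw [hCstep]
    refine (norm_add_le _ _).trans ?_
    gcongr
    rw [norm_mul, norm_div, norm_mul, hWn, Complex.norm_real, Complex.norm_real,
      Real.norm_of_nonneg (hGpos k).le, Real.norm_of_nonneg (hGpos (k + 1)).le]
    have e1 : ‖(l * (starRingEnd ℂ) (y k) + b k * (starRingEnd ℂ) (x k)) *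
        (starRingEnd ℂ) (x (k + 1)) + (starRingEnd ℂ) (y k) * (starRingEnd ℂ) (y (k + 1))‖ ≤
        (‖l‖ + 1) * (f k * f (k + 1)) := by
      refine (norm_add_le _ _).trans ?_
      rw [norm_mul, norm_mul, RCLike.norm_conj, RCLike.norm_conj, RCLike.norm_conj]
      have e2 : ‖l * (starRingEnd ℂ) (y k) + b k * (starRingEnd ℂ) (x k)‖ ≤
          ‖l‖ * ‖y k‖ + ‖x k‖ := by
        refine (norm_add_le _ _).trans ?_
        rw [norm_mul, norm_mul, hb1, one_mul, RCLike.norm_conj, RCLike.norm_conj]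
      have e3 : ‖l * (starRingEnd ℂ) (y k) + b k * (starRingEnd ℂ) (x k)‖ ≤ (‖l‖ + 1) * f k := by
        refine e2.trans ?_
        simp only [hf]
        have := mul_nonneg (norm_nonneg l) (norm_nonneg (x k))
        nlinarith [norm_nonneg (x k), norm_nonneg (y k), norm_nonneg l]
      have e4 : ‖y k‖ ≤ (‖l‖ + 1) * f k := by
        simp only [hf]
        have h1 := mul_nonneg (norm_nonneg l) (norm_nonneg (x k))
        have h2 := mul_nonneg (norm_nonneg l) (norm_nonneg (y k))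
        nlinarith [norm_nonneg (x k), norm_nonneg (y k), norm_nonneg l]
      calc ‖l * (starRingEnd ℂ) (y k) + b k * (starRingEnd ℂ) (x k)‖ * ‖x (k + 1)‖ +
            ‖y k‖ * ‖y (k + 1)‖
          ≤ ((‖l‖ + 1) * f k) * ‖x (k + 1)‖ + ((‖l‖ + 1) * f k) * ‖y (k + 1)‖ := by gcongr
        _ = (‖l‖ + 1) * (f k * f (k + 1)) := by simp only [hf]; ring
    have e5 : (f k * f (k + 1)) ^ 2 / 4 ≤ G k * G (k + 1) := by
      calc (f k * f (k + 1)) ^ 2 / 4 = (f k ^ 2 / 2) * (f (k + 1) ^ 2 / 2) := by ring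
        _ ≤ G k * G (k + 1) := mul_le_mul (hGf k) (hGf (k + 1)) (by positivity) (hGpos k).le
    have f1 := hfpos k
    have f2 := hfpos (k + 1)
    calc ‖W 0‖ / (G k * G (k + 1)) * ‖(l * (starRingEnd ℂ) (y k) + b k * (starRingEnd ℂ) (x k)) *
        (starRingEnd ℂ) (x (k + 1)) + (starRingEnd ℂ) (y k) * (starRingEnd ℂ) (y (k + 1))‖
        ≤ ‖W 0‖ / ((f k * f (k + 1)) ^ 2 / 4) * ((‖l‖ + 1) * (f k * f (k + 1))) := by
          gcongr
      _ = 4 * (‖l‖ + 1) * ‖W 0‖ / (f k * f (k + 1)) := by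
          field_simp
  have hCn : ∀ k, k ≤ n → ‖C k‖ ≤ ‖C 0‖ + k * (4 * (‖l‖ + 1) * ‖W 0‖ / (δ ^ 2 * (f 0 * f n))) := by
    intro k
    induction k with
    | zero => intro _; simp
    | succ k ih =>
      intro hk
      have a1 := ih (by omega)
      have a2 := hstep k
      have f1 := hfpos 0
      have f2 := hfpos n
      have a3 : δ ^ 2 * (f 0 * f n) ≤ f k * f (k + 1) := by
        calc δ ^ 2 * (f 0 * f n) = (δ * f 0) * (δ * f n) := by ring
          _ ≤ f k * f (k + 1) := mul_le_mul (h0 k (by omega)) (hn (k + 1) hk) (by positivity)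
            (hfpos k).le
      have a4 : 4 * (‖l‖ + 1) * ‖W 0‖ / (f k * f (k + 1)) ≤
          4 * (‖l‖ + 1) * ‖W 0‖ / (δ ^ 2 * (f 0 * f n)) := by gcongr
      push_cast
      linarith
  have f1 := hfpos 0
  have f2 := hfpos n
  have hC0 : ‖C 0‖ ≤ 2 * (‖p 0‖ + ‖q 0‖) / f 0 := by
    simp only [hC]
    rw [norm_div, Complex.norm_real, Real.norm_of_nonneg (hGpos 0).le]
    have e1 : ‖p 0 * (starRingEnd ℂ) (x 0) + q 0 * (starRingEnd ℂ) (y 0)‖ ≤
        (‖p 0‖ + ‖q 0‖) * f 0 := by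
      refine (norm_add_le _ _).trans ?_
      rw [norm_mul, norm_mul, RCLike.norm_conj, RCLike.norm_conj]
      simp only [hf]
      have h1 := mul_nonneg (norm_nonneg (p 0)) (norm_nonneg (y 0))
      have h2 := mul_nonneg (norm_nonneg (q 0)) (norm_nonneg (x 0))
      nlinarith
    calc ‖p 0 * (starRingEnd ℂ) (x 0) + q 0 * (starRingEnd ℂ) (y 0)‖ / G 0
        ≤ ((‖p 0‖ + ‖q 0‖) * f 0) / (f 0 ^ 2 / 2) := by
          gcongr
          exact hGf 0
      _ = 2 * (‖p 0‖ + ‖q 0‖) / f 0 := by field_simp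
  have hW0 : ‖W 0‖ ≤ (‖p 0‖ + ‖q 0‖) * f 0 := by
    simp only [hW]
    refine (norm_sub_le _ _).trans ?_
    rw [norm_mul, norm_mul]
    simp only [hf]
    have h1 := mul_nonneg (norm_nonneg (p 0)) (norm_nonneg (x 0))
    have h2 := mul_nonneg (norm_nonneg (q 0)) (norm_nonneg (y 0))
    nlinarith
  have hfin : ‖p n‖ + ‖q n‖ ≤ ‖C n‖ * f n + 2 * ‖W 0‖ / f n := by
    have e1 : ‖p n‖ ≤ ‖C n‖ * ‖x n‖ + ‖W 0‖ * ‖y n‖ / G n := by
      rw [hpk n]
      refine (norm_add_le _ _).trans (le_of_eq ?_)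
      rw [norm_mul (C n), norm_div (W n * _), norm_mul (W n), RCLike.norm_conj, Complex.norm_real,
        Real.norm_of_nonneg (hGpos n).le, hWn]
    have e2 : ‖q n‖ ≤ ‖C n‖ * ‖y n‖ + ‖W 0‖ * ‖x n‖ / G n := by
      rw [hqk n]
      refine (norm_sub_le _ _).trans (le_of_eq ?_)
      rw [norm_mul (C n), norm_div (W n * _), norm_mul (W n), RCLike.norm_conj, Complex.norm_real,
        Real.norm_of_nonneg (hGpos n).le, hWn]
    have e3 : ‖W 0‖ * f n / G n ≤ 2 * ‖W 0‖ / f n := by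
      calc ‖W 0‖ * f n / G n ≤ ‖W 0‖ * f n / (f n ^ 2 / 2) := by
            gcongr
            exact hGf n
        _ = 2 * ‖W 0‖ / f n := by field_simp
    have e4 : ‖W 0‖ * f n / G n = ‖W 0‖ * ‖x n‖ / G n + ‖W 0‖ * ‖y n‖ / G n := by
      simp only [hf]; ring
    have e5 : ‖C n‖ * f n = ‖C n‖ * ‖x n‖ + ‖C n‖ * ‖y n‖ := by simp only [hf]; ring
    linarith
  have hfn0 : f n / f 0 ≤ 1 / δ := by
    rw [div_le_div_iff₀ f1 hδ]
    have := hn 0 (Nat.zero_le _)
    linarith
  have hf0n : f 0 / f n ≤ 1 / δ := by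
    rw [div_le_div_iff₀ f2 hδ]
    have := h0 n le_rfl
    linarith
  set P : ℝ := ‖p 0‖ + ‖q 0‖ with hP
  have hP0 : 0 ≤ P := by positivity
  calc ‖p n‖ + ‖q n‖ ≤ ‖C n‖ * f n + 2 * ‖W 0‖ / f n := hfin
    _ ≤ (2 * P / f 0 + n * (4 * (‖l‖ + 1) * (P * f 0) / (δ ^ 2 * (f 0 * f n)))) * f n +
        2 * (P * f 0) / f n := by
        have a1 := hCn n le_rfl
        have a2 : ‖C n‖ ≤ 2 * P / f 0 + n * (4 * (‖l‖ + 1) * (P * f 0) / (δ ^ 2 * (f 0 * f n))) := by
          refine a1.trans ?_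
          gcongr
        gcongr
    _ = 2 * P * (f n / f 0) + 4 * (‖l‖ + 1) / δ ^ 2 * n * P + 2 * P * (f 0 / f n) := by
        field_simp
    _ ≤ 2 * P * (1 / δ) + 4 * (‖l‖ + 1) / δ ^ 2 * n * P + 2 * P * (1 / δ) := by gcongr
    _ = (4 / δ + 4 * (‖l‖ + 1) / δ ^ 2 * n) * P := by ring
/-- One-step transfer matrix. -/
def step (l b : ℂ) : Matrix (Fin 2) (Fin 2) ℂ := !![l, -b; 1, 0]

/-- Transfer matrix over the first `n` letters of `c`. -/
def mat (c : ℕ → ℂ) (l : ℂ) : ℕ → Matrix (Fin 2) (Fin 2) ℂ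
  | 0 => 1
  | k + 1 => step l (c k) * mat c l k

lemma det_step (l b : ℂ) : (step l b).det = b := by
  simp [step, Matrix.det_fin_two]

lemma det_mat {c : ℕ → ℂ} (hc : ∀ k, c k = 1 ∨ c k = -1) (l : ℂ) (n : ℕ) :
    (mat c l n).det = 1 ∨ (mat c l n).det = -1 := by
  induction n with
  | zero => left; simp [mat]
  | succ k ih =>
    rw [mat, Matrix.det_mul, det_step]
    rcases hc k with h | h <;> rcases ih with h' | h' <;> rw [h, h'] <;> simp

lemma det_mat_const (c : ℕ → ℂ) (l l' : ℂ) (n : ℕ) :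
    (mat c l n).det = (mat c l' n).det := by
  induction n with
  | zero => simp [mat]
  | succ k ih => rw [mat, mat, Matrix.det_mul, Matrix.det_mul, det_step, det_step, ih]

lemma differentiable_mat (c : ℕ → ℂ) (n : ℕ) (i j : Fin 2) :
    Differentiable ℂ (fun l => mat c l n i j) := by
  induction n generalizing i j with
  | zero => simp only [mat]; fun_prop
  | succ k ih =>
    simp only [mat, step, Matrix.mul_apply, Fin.sum_univ_two]
    fin_cases i
    · simp only [Fin.zero_eta, Matrix.of_apply, Matrix.cons_val_zero, Matrix.cons_val_one,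
        Matrix.cons_val', Matrix.cons_val_fin_one]
      exact (differentiable_id.mul (ih 0 j)).add ((differentiable_const _).mul (ih 1 j))
    · simp only [Fin.mk_one, Matrix.of_apply, Matrix.cons_val_zero, Matrix.cons_val_one,
        Matrix.cons_val', Matrix.cons_val_fin_one, one_mul, zero_mul, add_zero]
      exact ih 0 j

lemma differentiable_trace (c : ℕ → ℂ) (n : ℕ) :
    Differentiable ℂ (fun l => (mat c l n).trace) := by
  simp only [Matrix.trace_fin_two]
  exact (differentiable_mat c n 0 0).add (differentiable_mat c n 1 1)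

/-- eigenvector from a root of the characteristic equation -/
lemma exists_eigvec (M : Matrix (Fin 2) (Fin 2) ℂ) {μ : ℂ}
    (h : μ ^ 2 - M.trace * μ + M.det = 0) : ∃ v : Fin 2 → ℂ, v ≠ 0 ∧ M.mulVec v = μ • v := by
  have hdet : (M - Matrix.scalar (Fin 2) μ).det = 0 := by
    rw [Matrix.det_fin_two]
    rw [Matrix.trace_fin_two, Matrix.det_fin_two] at h
    simp
    linear_combination h
  obtain ⟨v, hv, hMv⟩ := Matrix.exists_mulVec_eq_zero_iff.mpr hdet
  refine ⟨v, hv, ?_⟩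
  rw [Matrix.sub_mulVec, sub_eq_zero] at hMv
  rw [hMv]
  ext i
  simp [Matrix.mulVec_diagonal]

/-- Bloch solutions. -/
lemma exists_bloch {c : ℕ → ℂ} (hc : ∀ k, c k = 1 ∨ c k = -1) {l : ℂ} {n : ℕ} (hn : 1 ≤ n)
    {μ : ℂ} (hμ : μ ^ 2 - (mat c l n).trace * μ + (mat c l n).det = 0) :
    μ ≠ 0 ∧ ∃ c' φ : ℤ → ℂ, (∀ m, c' m = 1 ∨ c' m = -1) ∧ (∀ m, c' (m + (n : ℤ)) = c' m) ∧
      (∀ m, φ (m + 1) + c' m * φ (m - 1) = l * φ m) ∧ φ 0 = 1 ∧
      ∀ j : ℤ, ‖φ j‖ ≤ Real.exp (Real.log ‖μ‖ / n * j) := by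
  have hμ0 : μ ≠ 0 := by
    rintro rfl
    rcases det_mat hc l n with h | h <;> rw [h] at hμ <;> simp at hμ
  refine ⟨hμ0, ?_⟩
  obtain ⟨v, hv, hMv⟩ := exists_eigvec _ hμ
  have hnz : (0 : ℤ) < n := by exact_mod_cast hn
  set S : ℤ → (Fin 2 → ℂ) := fun m => μ ^ (m / (n : ℤ)) • (mat c l (m % (n : ℤ)).toNat).mulVec v
    with hS
  set c1 : ℤ → ℂ := fun m => c (m % (n : ℤ)).toNat with hc1
  have hS1 : ∀ m, S (m + 1) = (step l (c1 m)).mulVec (S m) := by
    intro m
    have hm0 := Int.emod_nonneg m hnz.ne'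
    have hmn := Int.emod_lt_of_pos m hnz
    have hdm := Int.emod_add_mul_ediv m n
    simp only [hS, hc1]
    rw [Matrix.mulVec_smul, Matrix.mulVec_mulVec]
    have hmat : step l (c (m % (n : ℤ)).toNat) * mat c l (m % (n : ℤ)).toNat =
        mat c l ((m % (n : ℤ)).toNat + 1) := rfl
    rw [hmat]
    rcases lt_or_eq_of_le (Int.add_one_le_iff.mpr hmn) with h | h
    · have h2 : (m + 1) / (n : ℤ) = m / (n : ℤ) ∧ (m + 1) % (n : ℤ) = m % (n : ℤ) + 1 := by
        rw [Int.ediv_emod_unique hnz]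
        refine ⟨?_, by omega, h⟩
        linarith
      rw [h2.1, h2.2]
      congr 2
      congr 1
      omega
    · have h2 : (m + 1) / (n : ℤ) = m / (n : ℤ) + 1 ∧ (m + 1) % (n : ℤ) = 0 := by
        rw [Int.ediv_emod_unique hnz]
        refine ⟨?_, le_rfl, hnz⟩
        rw [mul_add]
        linarith
      have h3 : (m % (n : ℤ)).toNat + 1 = n := by omega
      rw [h2.1, h2.2, h3, hMv, zpow_add_one₀ hμ0, smul_smul]
      simp [mat]
  have hSn : ∀ m, S (m + n) = μ • S m := by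
    intro m
    simp only [hS]
    rw [Int.add_ediv_of_dvd_right (dvd_refl _), Int.ediv_self hnz.ne', Int.add_emod_right,
      zpow_add_one₀ hμ0, smul_smul, mul_comm]
  have hc1s : ∀ m, c1 m = 1 ∨ c1 m = -1 := fun m => hc _
  have hc1n : ∀ m, c1 (m + n) = c1 m := by
    intro m
    simp only [hc1]
    rw [Int.add_emod_right]
  set ψ : ℤ → ℂ := fun m => S m 0 with hψ
  have hstep0 : ∀ m, S (m + 1) 0 = l * S m 0 - c1 m * S m 1 := by
    intro m
    rw [hS1]
    simp [step, Matrix.mulVec, dotProduct, Fin.sum_univ_two]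
    ring
  have hstep1 : ∀ m, S (m + 1) 1 = S m 0 := by
    intro m
    rw [hS1]
    simp [step, Matrix.mulVec, dotProduct, Fin.sum_univ_two]
  have hψs : ∀ m, ψ (m + 1) + c1 m * ψ (m - 1) = l * ψ m := by
    intro m
    have h1 := hstep1 (m - 1)
    rw [sub_add_cancel] at h1
    simp only [hψ]
    rw [hstep0 m, h1]
    ring
  have hψn : ∀ m, ψ (m + n) = μ * ψ m := by
    intro m
    simp only [hψ]
    rw [hSn]
    simp
  have hnpos : (0 : ℝ) < n := by exact_mod_cast hn
  have hμpos : 0 < ‖μ‖ := norm_pos_iff.mpr hμ0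
  set a : ℝ := Real.log ‖μ‖ / n with ha
  have han : Real.exp (a * n) = ‖μ‖ := by
    rw [ha, div_mul_cancel₀ _ hnpos.ne', Real.exp_log hμpos]
  set g : ℤ → ℝ := fun m => ‖ψ m‖ * Real.exp (-(a * m)) with hg
  have hgn : Function.Periodic g (n : ℤ) := by
    intro m
    simp only [hg]
    rw [hψn, norm_mul]
    push_cast
    rw [mul_add, neg_add, Real.exp_add, Real.exp_neg (a * n), han]
    field_simp
  have hgmod : ∀ m, g m = g (m % n) := by
    intro m
    have h1 := hgn.sub_zsmul_eq (x := m) (m / n)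
    rw [← h1]
    congr 1
    rw [smul_eq_mul]
    have := Int.emod_add_mul_ediv m n
    linarith
  obtain ⟨m1, hm1, hmax⟩ := (Finset.range n).exists_max_image (fun k : ℕ => g k)
    ⟨0, by simp; omega⟩
  have hgmax : ∀ m, g m ≤ g m1 := by
    intro m
    rw [hgmod m]
    have hm0 := Int.emod_nonneg m hnz.ne'
    have hmn := Int.emod_lt_of_pos m hnz
    have h1 := hmax (m % (n : ℤ)).toNat (by simp; omega)
    have h2 : (((m % (n : ℤ)).toNat : ℕ) : ℤ) = m % n := by omega
    simp only [h2] at h1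
    exact h1
  have hψm1 : ψ m1 ≠ 0 := by
    intro h0
    have h1 : g m1 = 0 := by simp only [hg]; rw [h0]; simp
    have h2 : ∀ m, ψ m = 0 := by
      intro m
      have h3 := hgmax m
      rw [h1] at h3
      simp only [hg] at h3
      have h4 : ‖ψ m‖ ≤ 0 := by
        by_contra hcon
        push Not at hcon
        have := Real.exp_pos (-(a * m))
        have : 0 < ‖ψ m‖ * Real.exp (-(a * m)) := by positivity
        linarith
      exact norm_le_zero_iff.mp h4
    apply hv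
    have hS0 : S 0 = v := by
      simp only [hS]
      rw [Int.zero_ediv, Int.zero_emod, zpow_zero, one_smul]
      exact Matrix.one_mulVec v
    have e0 : v 0 = 0 := by
      have := h2 0
      simp only [hψ] at this
      rw [hS0] at this
      exact this
    have e1 : v 1 = 0 := by
      have h5 := hstep1 (-1)
      rw [neg_add_cancel, hS0] at h5
      rw [h5]
      exact h2 (-1)
    ext i
    fin_cases i
    · exact e0
    · exact e1
  refine ⟨fun j => c1 (m1 + j), fun j => ψ (m1 + j) / ψ m1, fun j => hc1s _, ?_, ?_, ?_, ?_⟩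
  · intro j
    simp only
    rw [← add_assoc, hc1n]
  · intro j
    have h1 := hψs (m1 + j)
    simp only
    have e1 : (m1 : ℤ) + (j + 1) = m1 + j + 1 := by ring
    have e2 : (m1 : ℤ) + (j - 1) = m1 + j - 1 := by ring
    rw [e1, e2]
    field_simp
    exact h1
  · simp only [add_zero]
    exact div_self hψm1
  · intro j
    simp only
    have hpos : 0 < ‖ψ m1‖ := norm_pos_iff.mpr hψm1
    rw [norm_div, div_le_iff₀ hpos]
    have h1 := hgmax (m1 + j)
    simp only [hg] at h1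
    push_cast at h1
    rw [mul_add, neg_add, Real.exp_add] at h1
    have h2 : 0 < Real.exp (-(a * m1)) := Real.exp_pos _
    have h3 : ‖ψ (m1 + j)‖ * Real.exp (-(a * j)) ≤ ‖ψ m1‖ := by
      have : ‖ψ (m1 + j)‖ * Real.exp (-(a * j)) * Real.exp (-(a * m1)) ≤
          ‖ψ m1‖ * Real.exp (-(a * m1)) := by linarith
      exact le_of_mul_le_mul_right this h2
    rw [Real.exp_neg] at h3
    have h4 : 0 < Real.exp (a * j) := Real.exp_pos _
    rw [← div_eq_mul_inv, div_le_iff₀ h4] at h3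
    linarith

/-- Uniform growth of the dominant multipliers. -/
def UG (l : ℂ) : Prop :=
  ∃ η : ℝ, 0 < η ∧ ∀ c : ℕ → ℂ, (∀ k, c k = 1 ∨ c k = -1) → ∀ n : ℕ, 1 ≤ n →
    ∃ μ : ℂ, μ ^ 2 - (mat c l n).trace * μ + (mat c l n).det = 0 ∧ η * n ≤ Real.log ‖μ‖

lemma not_bs_of_ug {l : ℂ} (h : UG l) {c φ : ℤ → ℂ} (hc : ∀ m, c m = 1 ∨ c m = -1)
    (hs : ∀ m, φ (m + 1) + c m * φ (m - 1) = l * φ m) (h0 : φ 0 = 1) {B : ℝ}
    (hb : ∀ m, ‖φ m‖ ≤ B) : False := by
  obtain ⟨η, hη, hU⟩ := h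
  have hcn : ∀ k, ‖c k‖ = 1 := by
    intro k
    rcases hc k with h | h <;> rw [h] <;> simp
  set f : ℤ → ℝ := fun k => ‖φ k‖ + ‖φ (k - 1)‖ with hf
  set κ : ℝ := ‖l‖ + 1 with hκ
  have hκ1 : 1 ≤ κ := by rw [hκ]; linarith [norm_nonneg l]
  have hκ0 : 0 < κ := by linarith
  have hf1 : ∀ k, f (k + 1) ≤ κ * f k := by
    intro k
    have e1 : φ (k + 1) = l * φ k - c k * φ (k - 1) := by rw [← hs k]; ring
    have e2 : ‖φ (k + 1)‖ ≤ ‖l‖ * ‖φ k‖ + ‖φ (k - 1)‖ := by
      rw [e1]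
      refine (norm_sub_le _ _).trans ?_
      rw [norm_mul, norm_mul, hcn, one_mul]
    simp only [hf, hκ, add_sub_cancel_right]
    have := mul_nonneg (norm_nonneg l) (norm_nonneg (φ (k - 1)))
    nlinarith [norm_nonneg (φ k), norm_nonneg (φ (k - 1)), norm_nonneg l]
  have hf2 : ∀ k, f k ≤ κ * f (k + 1) := by
    intro k
    have e2 : ‖φ (k - 1)‖ ≤ ‖l‖ * ‖φ k‖ + ‖φ (k + 1)‖ := by
      have e1 : c k * φ (k - 1) = l * φ k - φ (k + 1) := by rw [← hs k]; ring
      have e3 : ‖c k * φ (k - 1)‖ = ‖φ (k - 1)‖ := by rw [norm_mul, hcn, one_mul]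
      rw [← e3, e1]
      refine (norm_sub_le _ _).trans ?_
      rw [norm_mul]
    simp only [hf, hκ, add_sub_cancel_right]
    have := mul_nonneg (norm_nonneg l) (norm_nonneg (φ (k + 1)))
    nlinarith [norm_nonneg (φ k), norm_nonneg (φ (k + 1)), norm_nonneg l]
  have hf0 : 0 < f 0 := by
    simp only [hf]
    rw [h0, norm_one]
    positivity
  have hpos : ∀ k, 0 < f k := by
    intro k
    induction k using Int.induction_on with
    | zero => exact hf0
    | succ k ih =>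
      have := hf2 k
      by_contra hcon
      push Not at hcon
      nlinarith
    | pred k ih =>
      have := hf1 (-(k : ℤ) - 1)
      rw [sub_add_cancel] at this
      by_contra hcon
      push Not at hcon
      nlinarith
  refine first_passage hpos hκ1 hf1 hf2 (F := B + B) (fun k => add_le_add (hb _) (hb _)) ?_
  intro δ hδ
  obtain ⟨L, hL⟩ := exists_nat_gt (2 * (4 / δ + 4 * κ / δ ^ 2) / η ^ 2)
  refine ⟨L, fun i n hk => ?_⟩
  rcases Nat.eq_zero_or_pos n with hn | hn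
  · omega
  obtain ⟨μ, hμ, hlog⟩ := hU (fun k : ℕ => c (i + k)) (fun k => hc _) n hn
  obtain ⟨v, hv, hMv⟩ := exists_eigvec _ hμ
  set c1 : ℕ → ℂ := fun k : ℕ => c (i + k) with hc1
  have hgr := growth (l := l) (b := c1) (x := fun k : ℕ => φ (i + k))
    (y := fun k : ℕ => φ (i + k - 1)) (p := fun k => (mat c1 l k).mulVec v 0)
    (q := fun k => (mat c1 l k).mulVec v 1) (n := n) (δ := δ) (fun k => hc _)
    (by
      intro k
      have e1 := hs (i + k)
      simp only [hc1]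
      push_cast
      rw [← add_assoc]
      linear_combination e1)
    (by
      intro k
      push_cast
      congr 1
      ring)
    (by
      intro k
      simp only [mat]
      rw [← Matrix.mulVec_mulVec]
      simp [step, Matrix.mulVec, dotProduct, Fin.sum_univ_two]
      ring)
    (by
      intro k
      simp only [mat]
      rw [← Matrix.mulVec_mulVec]
      simp [step, Matrix.mulVec, dotProduct, Fin.sum_univ_two])
    hδ (fun k => hpos (i + k))
    (by
      intro k hkn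
      have := (hk k hkn).1
      simpa [hf] using this)
    (by
      intro k hkn
      have := (hk k hkn).2
      simpa [hf] using this)
  simp only [mat, Matrix.one_mulVec] at hgr
  rw [hMv] at hgr
  simp only [Pi.smul_apply, smul_eq_mul, norm_mul] at hgr
  have hP : 0 < ‖v 0‖ + ‖v 1‖ := by
    by_contra hcon
    push Not at hcon
    apply hv
    ext i
    have h1 := norm_nonneg (v 0)
    have h2 := norm_nonneg (v 1)
    fin_cases i
    · show v 0 = 0
      exact norm_le_zero_iff.mp (by linarith)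
    · show v 1 = 0
      exact norm_le_zero_iff.mp (by linarith)
  have hμle : ‖μ‖ ≤ 4 / δ + 4 * (‖l‖ + 1) / δ ^ 2 * n := by
    have : ‖μ‖ * (‖v 0‖ + ‖v 1‖) ≤
        (4 / δ + 4 * (‖l‖ + 1) / δ ^ 2 * n) * (‖v 0‖ + ‖v 1‖) := by linarith
    exact le_of_mul_le_mul_right this hP
  have hμ0 : 0 < ‖μ‖ := by
    rw [norm_pos_iff]
    rintro rfl
    rw [norm_zero, Real.log_zero] at hlog
    have : 0 < η * n := by positivity
    linarith
  have hexp : Real.exp (η * n) ≤ ‖μ‖ := by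
    rw [← Real.exp_log hμ0]
    exact Real.exp_le_exp.mpr hlog
  have hquad := Real.quadratic_le_exp_of_nonneg (x := η * n) (by positivity)
  have hn1 : (1 : ℝ) ≤ n := by exact_mod_cast hn
  have hA : 4 / δ ≤ 4 / δ * n := by
    have : 0 < 4 / δ := by positivity
    nlinarith
  have hfinal : η ^ 2 * n ^ 2 / 2 ≤ (4 / δ + 4 * κ / δ ^ 2) * n := by
    have e1 : η ^ 2 * (n : ℝ) ^ 2 / 2 = (η * n) ^ 2 / 2 := by ring
    have e2 : 0 < η * n := by positivity
    rw [e1]
    calc (η * n) ^ 2 / 2 ≤ 4 / δ + 4 * (‖l‖ + 1) / δ ^ 2 * n := by linarith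
      _ ≤ 4 / δ * n + 4 * (‖l‖ + 1) / δ ^ 2 * n := by linarith
      _ = (4 / δ + 4 * κ / δ ^ 2) * n := by rw [hκ]; ring
  have hfinal2 : (n : ℝ) ≤ 2 * (4 / δ + 4 * κ / δ ^ 2) / η ^ 2 := by
    rw [le_div_iff₀ (by positivity)]
    have hnpos : (0 : ℝ) < n := by linarith
    have : (η ^ 2 * n / 2) * n ≤ (4 / δ + 4 * κ / δ ^ 2) * n := by linarith
    have := le_of_mul_le_mul_right this hnpos
    linarith
  have : (n : ℝ) < L := lt_of_le_of_lt hfinal2 hL
  exact_mod_cast this.le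

/-- Logarithm of a nonvanishing holomorphic function on a disc. -/
lemma exists_log {f : ℂ → ℂ} {a : ℂ} {R : ℝ} (hR : 0 < R)
    (hf : DifferentiableOn ℂ f (Metric.ball a R)) (h0 : ∀ z ∈ Metric.ball a R, f z ≠ 0) :
    ∃ h : ℂ → ℂ, DifferentiableOn ℂ h (Metric.ball a R) ∧
      ∀ z ∈ Metric.ball a R, Complex.exp (h z) = f z := by
  have ha : a ∈ Metric.ball a R := Metric.mem_ball_self hR
  have hd : DifferentiableOn ℂ (fun z => deriv f z / f z) (Metric.ball a R) :=
    (hf.deriv Metric.isOpen_ball).div hf h0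
  obtain ⟨F, hF⟩ := hd.isExactOn_ball
  set h : ℂ → ℂ := fun z => F z - F a + Complex.log (f a) with hh
  have hhd : ∀ z ∈ Metric.ball a R, HasDerivAt h (deriv f z / f z) z := by
    intro z hz
    exact ((hF z hz).sub_const _).add_const _
  have hfd : ∀ z ∈ Metric.ball a R, HasDerivAt f (deriv f z) z := by
    intro z hz
    exact (hf.differentiableAt (Metric.isOpen_ball.mem_nhds hz)).hasDerivAt
  refine ⟨h, fun z hz => (hhd z hz).differentiableAt.differentiableWithinAt, ?_⟩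
  -- f * exp (-h) is constant
  set G : ℂ → ℂ := fun z => f z * Complex.exp (-h z) with hG
  have hGd : ∀ z ∈ Metric.ball a R, HasDerivAt G 0 z := by
    intro z hz
    have h1 : HasDerivAt G (deriv f z * Complex.exp (-h z) +
        f z * (Complex.exp (-h z) * (-(deriv f z / f z)))) z :=
      (hfd z hz).mul ((hhd z hz).neg.cexp)
    have h2 : deriv f z * Complex.exp (-h z) +
        f z * (Complex.exp (-h z) * (-(deriv f z / f z))) = 0 := by
      have := h0 z hz
      field_simp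
      ring
    rw [h2] at h1
    exact h1
  have hconst : ∀ z ∈ Metric.ball a R, G z = G a := by
    intro z hz
    have hdiff : DifferentiableOn ℂ G (Metric.ball a R) :=
      fun w hw => (hGd w hw).differentiableAt.differentiableWithinAt
    refine (convex_ball a R).is_const_of_fderivWithin_eq_zero (𝕜 := ℂ) hdiff ?_ hz ha
    intro w hw
    rw [fderivWithin_of_isOpen Metric.isOpen_ball hw]
    have := (hGd w hw).hasFDerivAt.fderiv
    rw [this]
    ext
    simp
  intro z hz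
  have h1 := hconst z hz
  have h2 : G a = 1 := by
    simp only [hG, hh]
    rw [sub_self, zero_add, Complex.exp_neg, Complex.exp_log (h0 a ha)]
    exact mul_inv_cancel₀ (h0 a ha)
  rw [h2] at h1
  simp only [hG] at h1
  rw [Complex.exp_neg] at h1
  have h3 := Complex.exp_ne_zero (h z)
  field_simp at h1
  exact h1.symm

/-- Harnack type inequality for the multipliers. -/
lemma harnack {t : ℂ → ℂ} {d a : ℂ} {R E : ℝ} (hR : 0 < R)
    (ht : DifferentiableOn ℂ t (Metric.ball a R)) (hd : ‖d‖ = 1)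
    (hne : ∀ z ∈ Metric.ball a R, ∀ μ : ℂ, μ ^ 2 - t z * μ + d = 0 → ‖μ‖ ≠ 1)
    (hE : ∀ μ : ℂ, μ ^ 2 - t a * μ + d = 0 → E ≤ |Real.log ‖μ‖|)
    {z : ℂ} (hz : z ∈ Metric.ball a (R / 2)) :
    ∃ μ : ℂ, μ ^ 2 - t z * μ + d = 0 ∧ E / 3 ≤ Real.log ‖μ‖ := by
  have ha : a ∈ Metric.ball a R := Metric.mem_ball_self hR
  have hd0 : d ≠ 0 := by rintro rfl; simp at hd
  -- discriminant
  have hD : ∀ w ∈ Metric.ball a R, t w ^ 2 - 4 * d ≠ 0 := by
    intro w hw h
    apply hne w hw (t w / 2) (by linear_combination (-1 / 4) * h)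
    have h1 : (t w / 2) ^ 2 = d := by linear_combination (1 / 4) * h
    have h2 : ‖t w / 2‖ ^ 2 = 1 := by rw [← norm_pow, h1, hd]
    have h3 := norm_nonneg (t w / 2)
    nlinarith
  have hDd : DifferentiableOn ℂ (fun w => t w ^ 2 - 4 * d) (Metric.ball a R) :=
    (ht.pow 2).sub_const (4 * d)
  obtain ⟨h1, h1d, h1e⟩ := exists_log hR hDd hD
  set s : ℂ → ℂ := fun w => Complex.exp (h1 w / 2) with hs
  have hsd : DifferentiableOn ℂ s (Metric.ball a R) := (h1d.div_const 2).cexp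
  have hs2 : ∀ w ∈ Metric.ball a R, s w ^ 2 = t w ^ 2 - 4 * d := by
    intro w hw
    simp only [hs]
    rw [← Complex.exp_nat_mul, ← h1e w hw]
    congr 1
    push_cast
    ring
  -- a root of modulus < 1
  have hroot : ∃ g : ℂ → ℂ, DifferentiableOn ℂ g (Metric.ball a R) ∧
      (∀ w ∈ Metric.ball a R, g w ^ 2 - t w * g w + d = 0) ∧ ‖g a‖ < 1 := by
    have hp : ∀ w ∈ Metric.ball a R,
        ((t w + s w) / 2) ^ 2 - t w * ((t w + s w) / 2) + d = 0 := by
      intro w hw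
      linear_combination (1 / 4) * hs2 w hw
    have hm : ∀ w ∈ Metric.ball a R,
        ((t w - s w) / 2) ^ 2 - t w * ((t w - s w) / 2) + d = 0 := by
      intro w hw
      linear_combination (1 / 4) * hs2 w hw
    rcases lt_or_ge ‖(t a + s a) / 2‖ 1 with h | h
    · exact ⟨fun w => (t w + s w) / 2, (ht.add hsd).div_const 2, hp, h⟩
    · refine ⟨fun w => (t w - s w) / 2, (ht.sub hsd).div_const 2, hm, ?_⟩
      have h2 : (t a + s a) / 2 * ((t a - s a) / 2) = d := by
        linear_combination (-1 / 4) * hs2 a ha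
      have h3 : ‖(t a + s a) / 2‖ * ‖(t a - s a) / 2‖ = 1 := by rw [← norm_mul, h2, hd]
      have h4 : ‖(t a + s a) / 2‖ ≠ 1 := hne a ha _ (hp a ha)
      have h5 : 1 < ‖(t a + s a) / 2‖ := lt_of_le_of_ne h (Ne.symm h4)
      have h6 := norm_nonneg ((t a - s a) / 2)
      simp only
      by_contra hcon
      push Not at hcon
      nlinarith
  obtain ⟨g, hgd, hgr, hga⟩ := hroot
  have hg0 : ∀ w ∈ Metric.ball a R, g w ≠ 0 := by
    intro w hw h
    have := hgr w hw
    rw [h] at this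
    apply hd0
    linear_combination this
  have hg1 : ∀ w ∈ Metric.ball a R, ‖g w‖ < 1 := by
    intro w hw
    by_contra hcon
    push Not at hcon
    have hpre : IsPreconnected (Metric.ball a R) := (convex_ball a R).isPreconnected
    have hcont : ContinuousOn (fun w => ‖g w‖) (Metric.ball a R) := hgd.continuousOn.norm
    have := hpre.intermediate_value ha hw hcont
    obtain ⟨u, hu, hu1⟩ := this ⟨hga.le, hcon⟩
    exact hne u hu (g u) (hgr u hu) hu1
  obtain ⟨h, hhd, hhe⟩ := exists_log hR hgd hg0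
  have hre : ∀ w ∈ Metric.ball a R, (h w).re < 0 := by
    intro w hw
    have h2 := hg1 w hw
    rw [← hhe w hw, Complex.norm_exp] at h2
    exact Real.exp_lt_one_iff.mp h2
  have hrelog : ∀ w ∈ Metric.ball a R, (h w).re = Real.log ‖g w‖ := by
    intro w hw
    rw [← hhe w hw, Complex.norm_exp, Real.log_exp]
  -- Schwarz-Pick
  set Φ : ℂ → ℂ := fun w => (h w - h a) / (h w + (starRingEnd ℂ) (h a)) with hΦ
  have hden : ∀ w ∈ Metric.ball a R, h w + (starRingEnd ℂ) (h a) ≠ 0 := by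
    intro w hw h2
    have h3 := congrArg Complex.re h2
    simp at h3
    linarith [hre w hw, hre a ha]
  have hΦd : DifferentiableOn ℂ Φ (Metric.ball a R) :=
    (hhd.sub_const _).div (hhd.add_const _) hden
  have hΦa : Φ a = 0 := by simp [hΦ]
  have hnormsq : ∀ w, ‖h w + (starRingEnd ℂ) (h a)‖ ^ 2 - ‖h w - h a‖ ^ 2 =
      4 * (h w).re * (h a).re := by
    intro w
    rw [Complex.sq_norm, Complex.sq_norm, Complex.normSq_apply, Complex.normSq_apply]
    simp
    ring
  have hmaps : Set.MapsTo Φ (Metric.ball a R) (Metric.closedBall (Φ a) 1) := by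
    intro w hw
    rw [hΦa, mem_closedBall_zero_iff]
    simp only [hΦ]
    rw [norm_div, div_le_one (norm_pos_iff.mpr (hden w hw))]
    have h2 := hnormsq w
    have h3 : 0 < (h w).re * (h a).re := mul_pos_of_neg_of_neg (hre w hw) (hre a ha)
    apply le_of_sq_le_sq _ (norm_nonneg _)
    nlinarith
  have hzR : z ∈ Metric.ball a R := Metric.ball_subset_ball (by linarith) hz
  have hsch := Complex.dist_le_div_mul_dist_of_mapsTo_ball hΦd hmaps hzR
  rw [hΦa, dist_zero_right] at hsch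
  have hhalf : ‖Φ z‖ ≤ 1 / 2 := by
    refine hsch.trans ?_
    rw [Metric.mem_ball] at hz
    rw [div_mul_eq_mul_div, one_mul, div_le_div_iff₀ hR (by norm_num)]
    linarith
  have hineq : 2 * ‖h z - h a‖ ≤ ‖h z + (starRingEnd ℂ) (h a)‖ := by
    simp only [hΦ] at hhalf
    rw [norm_div, div_le_div_iff₀ (norm_pos_iff.mpr (hden z hzR)) (by norm_num)] at hhalf
    linarith
  have hx : (h z).re ≤ (h a).re / 3 := by
    have e1 : 4 * ‖h z - h a‖ ^ 2 ≤ ‖h z + (starRingEnd ℂ) (h a)‖ ^ 2 := by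
      have := norm_nonneg (h z - h a)
      nlinarith
    rw [Complex.sq_norm, Complex.sq_norm, Complex.normSq_apply, Complex.normSq_apply] at e1
    simp at e1
    have hx1 := hre z hzR
    have hx0 := hre a ha
    by_contra hcon
    push Not at hcon
    have e2 : 4 * ((h z).re - (h a).re) ^ 2 ≤ ((h z).re + (h a).re) ^ 2 := by
      nlinarith [sq_nonneg ((h z).im - (h a).im)]
    nlinarith
  -- conclusion
  refine ⟨d / g z, ?_, ?_⟩
  · have h2 := hgr z hzR
    have h3 := hg0 z hzR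
    field_simp
    linear_combination d * h2
  · rw [norm_div, hd, one_div, Real.log_inv, ← hrelog z hzR]
    have h2 := hE (g a) (hgr a ha)
    rw [← hrelog a ha, abs_of_neg (hre a ha)] at h2
    linarith

end Pool.Agent.FZ
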