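import Mathlib

set_option autoImplicit false
set_option maxHeartbeats 4000000

noncomputable section

namespace Pool.Agent.FZ

abbrev HH : Type := lp (fun _ : ℤ => ℂ) 2

lemma two_toReal : (2 : ENNReal).toReal = 2 := by norm_num

lemma memlp_of_summable {f : ℤ → ℂ} (h : Summable (fun i => ‖f i‖ ^ 2)) : Memℓp f 2 := by
  apply memℓp_gen
  simpa [two_toReal] using h

lemma summable_of_lp (x : HH) : Summable (fun i => ‖x i‖ ^ 2) := by
  have h := (lp.memℓp x).summable (by norm_num)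
  simpa [two_toReal] using h

lemma norm_sq_eq (x : HH) : ‖x‖ ^ 2 = ∑' i, ‖x i‖ ^ 2 := by
  have h := lp.norm_rpow_eq_tsum (p := 2) (by norm_num) x
  simpa [two_toReal] using h

lemma norm_sgn {b : ℂ} (h : b = 1 ∨ b = -1) : ‖b‖ = 1 := by
  rcases h with rfl | rfl <;> simp

lemma hop_bound (c : ℤ → ℂ) (hc : ∀ n, c n = 1 ∨ c n = -1) (x : ℤ → ℂ) (n : ℤ) :
    ‖x (n + 1) + c n * x (n - 1)‖ ^ 2 ≤ 2 * (‖x (n + 1)‖ ^ 2 + ‖x (n - 1)‖ ^ 2) := by
  have h1 : ‖x (n + 1) + c n * x (n - 1)‖ ≤ ‖x (n + 1)‖ + ‖x (n - 1)‖ := by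
    refine (norm_add_le _ _).trans ?_
    rw [norm_mul, norm_sgn (hc n), one_mul]
  have h2 : 0 ≤ ‖x (n + 1) + c n * x (n - 1)‖ := norm_nonneg _
  nlinarith [sq_nonneg (‖x (n + 1)‖ - ‖x (n - 1)‖), norm_nonneg (x (n + 1)),
    norm_nonneg (x (n - 1))]

lemma sum_shift1 {g : ℤ → ℝ} (hg : Summable g) : Summable (fun n : ℤ => g (n + 1)) :=
  (Equiv.addRight (1 : ℤ)).summable_iff.mpr hg

lemma sum_shift2 {g : ℤ → ℝ} (hg : Summable g) : Summable (fun n : ℤ => g (n - 1)) :=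
  (Equiv.subRight (1 : ℤ)).summable_iff.mpr hg

lemma tsum_shift1 (g : ℤ → ℝ) : ∑' n : ℤ, g (n + 1) = ∑' n : ℤ, g n :=
  (Equiv.addRight (1 : ℤ)).tsum_eq g

lemma tsum_shift2 (g : ℤ → ℝ) : ∑' n : ℤ, g (n - 1) = ∑' n : ℤ, g n :=
  (Equiv.subRight (1 : ℤ)).tsum_eq g

lemma hop_summable (c : ℤ → ℂ) (hc : ∀ n, c n = 1 ∨ c n = -1) {x : ℤ → ℂ}
    (hx : Summable (fun i => ‖x i‖ ^ 2)) :
    Summable (fun n : ℤ => ‖x (n + 1) + c n * x (n - 1)‖ ^ 2) := by
  refine Summable.of_nonneg_of_le (fun n => by positivity) (hop_bound c hc x) ?_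
  exact ((sum_shift1 hx).add (sum_shift2 hx)).mul_left 2

lemma hop_tsum (c : ℤ → ℂ) (hc : ∀ n, c n = 1 ∨ c n = -1) {x : ℤ → ℂ}
    (hx : Summable (fun i => ‖x i‖ ^ 2)) :
    ∑' n : ℤ, ‖x (n + 1) + c n * x (n - 1)‖ ^ 2 ≤ 4 * ∑' n : ℤ, ‖x n‖ ^ 2 := by
  have h1 := Summable.tsum_le_tsum (hop_bound c hc x) (hop_summable c hc hx)
    (((sum_shift1 hx).add (sum_shift2 hx)).mul_left 2)
  rw [tsum_mul_left, Summable.tsum_add (sum_shift1 hx) (sum_shift2 hx),
    tsum_shift1 (fun n => ‖x n‖ ^ 2), tsum_shift2 (fun n => ‖x n‖ ^ 2)] at h1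
  linarith

def hopLin (c : ℤ → ℂ) (hc : ∀ n, c n = 1 ∨ c n = -1) : HH →ₗ[ℂ] HH where
  toFun := fun x => ⟨fun n => x (n + 1) + c n * x (n - 1),
    memlp_of_summable (hop_summable c hc (summable_of_lp x))⟩
  map_add' := by
    intro x y
    ext n
    show (x + y : HH) (n + 1) + c n * (x + y : HH) (n - 1) =
      (x (n + 1) + c n * x (n - 1)) + (y (n + 1) + c n * y (n - 1))
    simp only [lp.coeFn_add, Pi.add_apply]
    ring
  map_smul' := by
    intro a x
    ext n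
    show (a • x : HH) (n + 1) + c n * (a • x : HH) (n - 1) =
      a * (x (n + 1) + c n * x (n - 1))
    simp only [lp.coeFn_smul, Pi.smul_apply, smul_eq_mul]
    ring

lemma hopLin_apply (c : ℤ → ℂ) (hc : ∀ n, c n = 1 ∨ c n = -1) (x : HH) (n : ℤ) :
    (hopLin c hc x) n = x (n + 1) + c n * x (n - 1) := rfl

lemma hopLin_norm (c : ℤ → ℂ) (hc : ∀ n, c n = 1 ∨ c n = -1) (x : HH) :
    ‖hopLin c hc x‖ ≤ 2 * ‖x‖ := by
  have h1 : ‖hopLin c hc x‖ ^ 2 ≤ (2 * ‖x‖) ^ 2 := by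
    rw [norm_sq_eq, mul_pow, norm_sq_eq x]
    simp only [hopLin_apply]
    have := hop_tsum c hc (summable_of_lp x)
    linarith
  exact le_of_sq_le_sq h1 (by positivity)

lemma exists_op (c : ℤ → ℂ) (hc : ∀ n, c n = 1 ∨ c n = -1) :
    ∃ T : HH →L[ℂ] HH, ∀ (x : HH) (n : ℤ), (T x) n = x (n + 1) + c n * x (n - 1) :=
  ⟨(hopLin c hc).mkContinuous 2 (hopLin_norm c hc), fun _ _ => rfl⟩

lemma res_apply (T : HH →L[ℂ] HH) (l : ℂ) (x : HH) (m : ℤ) :
    ((algebraMap ℂ (HH →L[ℂ] HH) l - T) x) m = l * x m - (T x) m := by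
  rw [sub_apply, lp.coeFn_sub, Pi.sub_apply,
    Algebra.algebraMap_eq_smul_one]
  rfl

lemma lp_norm_apply_le (x : HH) (i : ℤ) : ‖x i‖ ^ 2 ≤ ‖x‖ ^ 2 := by
  rw [norm_sq_eq]
  exact (summable_of_lp x).le_tsum i (fun _ _ => by positivity)

/-- A nonzero bounded solution puts `l` into the spectrum. -/
lemma mem_spectrum_of_bounded {c : ℤ → ℂ} (hc : ∀ n, c n = 1 ∨ c n = -1) {l : ℂ} {φ : ℤ → ℂ}
    (hφ : ∀ m, φ (m + 1) + c m * φ (m - 1) = l * φ m) {B : ℝ} (hB : ∀ m, ‖φ m‖ ≤ B)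
    (h0 : φ 0 ≠ 0) {T : HH →L[ℂ] HH}
    (hT : ∀ (x : HH) (n : ℤ), (T x) n = x (n + 1) + c n * x (n - 1)) :
    l ∈ spectrum ℂ T := by
  by_contra hl
  rw [spectrum.notMem_iff] at hl
  obtain ⟨u, hu⟩ := hl
  have hB0 : 0 ≤ B := (norm_nonneg _).trans (hB 0)
  have hφ0 : 0 < ‖φ 0‖ := norm_pos_iff.mpr h0
  set S : HH →L[ℂ] HH := (↑u⁻¹ : HH →L[ℂ] HH) with hS
  have hinv : ∀ x : HH, S ((algebraMap ℂ (HH →L[ℂ] HH) l - T) x) = x := by
    intro x
    have h1 : S * (algebraMap ℂ (HH →L[ℂ] HH) l - T) = 1 := by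
      rw [← hu, hS]; exact u.inv_mul
    have h2 := congrArg (fun A : HH →L[ℂ] HH => A x) h1
    simpa using h2
  -- choose L
  obtain ⟨L, hL⟩ := exists_nat_gt (12 * (‖S‖ + 1) ^ 2 * (B + 1) ^ 2 / ‖φ 0‖ ^ 2)
  have hLpos : (0 : ℝ) < L := lt_of_le_of_lt (by positivity) hL
  have hL1 : (1 : ℝ) ≤ L := by
    have : 0 < L := by exact_mod_cast hLpos
    exact_mod_cast this
  set a : ℤ → ℝ := fun m => max (1 - |(m : ℝ)| / L) 0 with ha
  have ha0 : a 0 = 1 := by simp [ha]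
  have hsupp : ∀ m : ℤ, (L : ℤ) ≤ |m| → a m = 0 := by
    intro m hm
    have h1 : (L : ℝ) ≤ |(m : ℝ)| := by exact_mod_cast hm
    have h2 : 1 ≤ |(m : ℝ)| / L := by rwa [le_div_iff₀ hLpos, one_mul]
    simp only [ha]
    exact max_eq_right (by linarith)
  have hdiff : ∀ m k : ℤ, |m - k| ≤ 1 → |a m - a k| ≤ 1 / L := by
    intro m k hmk
    have h1 : |a m - a k| ≤ |(1 - |(m : ℝ)| / L) - (1 - |(k : ℝ)| / L)| := abs_max_sub_max_le_abs _ _ _
    have h2 : (1 - |(m : ℝ)| / L) - (1 - |(k : ℝ)| / L) = (|(k : ℝ)| - |(m : ℝ)|) / L := by ring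
    rw [h2, abs_div, abs_of_pos hLpos] at h1
    refine h1.trans ?_
    gcongr
    have h3 : |((m : ℝ) - k)| ≤ 1 := by exact_mod_cast hmk
    refine (abs_abs_sub_abs_le_abs_sub _ _).trans ?_
    rw [abs_sub_comm]
    exact h3
  have hxfin : ∀ m : ℤ, m ∉ Finset.Icc (-(L : ℤ)) L → a m = 0 := by
    intro m hm
    apply hsupp
    rw [Finset.mem_Icc, not_and_or] at hm
    rcases hm with h | h
    · push Not at h
      rw [abs_of_neg (by omega)]; omega
    · push Not at h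
      rw [abs_of_pos (by omega)]; omega
  have hxs : Summable (fun m : ℤ => ‖(a m : ℂ) * φ m‖ ^ 2) := by
    apply summable_of_ne_finset_zero (s := Finset.Icc (-(L : ℤ)) L)
    intro m hm
    rw [hxfin m hm]; simp
  set x : HH := ⟨fun m => (a m : ℂ) * φ m, memlp_of_summable hxs⟩ with hx
  have hxm : ∀ m : ℤ, x m = (a m : ℂ) * φ m := fun m => rfl
  set r : HH := (algebraMap ℂ (HH →L[ℂ] HH) l - T) x with hr
  have hrm : ∀ m : ℤ, r m = -(((a (m + 1) - a m : ℝ) : ℂ) * φ (m + 1) +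
      c m * (((a (m - 1) - a m : ℝ) : ℂ) * φ (m - 1))) := by
    intro m
    have h1 : r m = l * x m - (T x) m := by
      rw [hr, res_apply]
    rw [h1, hT, hxm, hxm, hxm]
    push_cast
    linear_combination (-(a m : ℂ)) * hφ m
  have hrz : ∀ m : ℤ, m ∉ Finset.Icc (-(L : ℤ)) L → r m = 0 := by
    intro m hm
    rw [hrm, hxfin m hm]
    have h1 : (L : ℤ) ≤ |m + 1| := by
      rw [Finset.mem_Icc, not_and_or] at hm
      rcases hm with h | h
      · push Not at h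
        rcases le_or_gt 0 (m + 1) with h' | h'
        · rw [abs_of_nonneg h']; omega
        · rw [abs_of_neg h']; omega
      · push Not at h
        rw [abs_of_pos (by omega)]; omega
    have h2 : (L : ℤ) ≤ |m - 1| := by
      rw [Finset.mem_Icc, not_and_or] at hm
      rcases hm with h | h
      · push Not at h
        rw [abs_of_neg (by omega)]; omega
      · push Not at h
        rcases le_or_gt 0 (m - 1) with h' | h'
        · rw [abs_of_nonneg h']; omega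
        · rw [abs_of_neg h']; omega
    rw [hsupp _ h1, hsupp _ h2]; simp
  have hrb : ∀ m : ℤ, ‖r m‖ ≤ 2 * B / L := by
    intro m
    rw [hrm, norm_neg]
    refine (norm_add_le _ _).trans ?_
    rw [norm_mul, norm_mul, norm_mul, norm_sgn (hc m), one_mul, Complex.norm_real,
      Complex.norm_real, Real.norm_eq_abs, Real.norm_eq_abs]
    have h1 := hdiff (m + 1) m (by simp)
    have h2 := hdiff (m - 1) m (by simp)
    calc |a (m + 1) - a m| * ‖φ (m + 1)‖ + |a (m - 1) - a m| * ‖φ (m - 1)‖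
        ≤ 1 / L * B + 1 / L * B := by
          gcongr
          · exact hB _
          · exact hB _
      _ = 2 * B / L := by ring
  have hrnorm : ‖r‖ ^ 2 ≤ (2 * L + 1) * (2 * B / L) ^ 2 := by
    rw [norm_sq_eq, tsum_eq_sum (s := Finset.Icc (-(L : ℤ)) L)
      (by intro m hm; rw [hrz m hm]; simp)]
    calc ∑ m ∈ Finset.Icc (-(L : ℤ)) L, ‖r m‖ ^ 2
        ≤ ∑ m ∈ Finset.Icc (-(L : ℤ)) L, (2 * B / L) ^ 2 := by
          apply Finset.sum_le_sum
          intro m _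
          exact pow_le_pow_left₀ (norm_nonneg _) (hrb m) 2
      _ = (2 * L + 1) * (2 * B / L) ^ 2 := by
          rw [Finset.sum_const, Int.card_Icc, nsmul_eq_mul]
          congr 1
          have : ((L : ℤ) + 1 - -(L : ℤ)).toNat = 2 * L + 1 := by omega
          rw [this]; push_cast; ring
  have hx0 : ‖φ 0‖ ^ 2 ≤ ‖x‖ ^ 2 := by
    have := lp_norm_apply_le x 0
    rw [hxm, ha0] at this
    simpa using this
  have hxr : ‖x‖ ≤ ‖S‖ * ‖r‖ := by
    have h1 := S.le_opNorm r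
    rw [hr, hinv x] at h1
    exact h1
  have h3 : ‖x‖ ^ 2 ≤ ‖S‖ ^ 2 * ‖r‖ ^ 2 := by
    rw [← mul_pow]; exact pow_le_pow_left₀ (norm_nonneg _) hxr 2
  have h4 : ‖φ 0‖ ^ 2 ≤ ‖S‖ ^ 2 * ((2 * L + 1) * (2 * B / L) ^ 2) :=
    hx0.trans (h3.trans (by gcongr))
  have h5 : ‖S‖ ^ 2 * ((2 * L + 1) * (2 * B / L) ^ 2) ≤ 12 * (‖S‖ + 1) ^ 2 * (B + 1) ^ 2 / L := by
    have e : ‖S‖ ^ 2 * ((2 * L + 1) * (2 * B / L) ^ 2) =
        (‖S‖ ^ 2 * B ^ 2 * (4 * (2 * L + 1)) / L) / L := by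
      field_simp; ring
    rw [e]
    gcongr
    rw [div_le_iff₀ hLpos]
    have h6 : ‖S‖ ^ 2 ≤ (‖S‖ + 1) ^ 2 := by gcongr; linarith
    have h7 : B ^ 2 ≤ (B + 1) ^ 2 := by gcongr; linarith
    have h8 : 4 * (2 * (L : ℝ) + 1) ≤ 12 * L := by linarith
    calc ‖S‖ ^ 2 * B ^ 2 * (4 * (2 * L + 1)) ≤ (‖S‖ + 1) ^ 2 * (B + 1) ^ 2 * (12 * L) := by gcongr
      _ = 12 * (‖S‖ + 1) ^ 2 * (B + 1) ^ 2 * L := by ring
  have h9 : 12 * (‖S‖ + 1) ^ 2 * (B + 1) ^ 2 / L < ‖φ 0‖ ^ 2 := by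
    rw [div_lt_iff₀ hLpos]
    rw [div_lt_iff₀ (by positivity)] at hL
    linarith
  linarith

lemma exists_gauge (c : ℤ → ℂ) (hc : ∀ n, c n = 1 ∨ c n = -1) :
    ∃ d : ℤ → ℂ, (∀ n, d n = 1 ∨ d n = -1) ∧ ∀ n, d (n + 1) = c (n + 1) * d n := by
  have hprod : ∀ s : Finset ℤ, (∏ k ∈ s, c k) = 1 ∨ (∏ k ∈ s, c k) = -1 := by
    intro s
    induction s using Finset.induction_on with
    | empty => left; simp
    | insert a s ha ih =>
      rw [Finset.prod_insert ha]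
      rcases hc a with h1 | h1 <;> rcases ih with h2 | h2 <;> rw [h1, h2] <;> simp
  refine ⟨fun m => (∏ k ∈ Finset.Ioc 0 m, c k) * (∏ k ∈ Finset.Ioc m 0, c k), ?_, ?_⟩
  · intro n
    rcases hprod (Finset.Ioc 0 n) with h1 | h1 <;> rcases hprod (Finset.Ioc n 0) with h2 | h2 <;>
      simp only [h1, h2] <;> simp
  · intro m
    simp only
    rcases le_or_gt 0 m with h | h
    · have e1 : Finset.Ioc 0 (m + 1) = insert (m + 1) (Finset.Ioc 0 m) := by
        ext k; simp only [Finset.mem_Ioc, Finset.mem_insert]; omega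
      have e2 : Finset.Ioc (m + 1) 0 = ∅ := by
        ext k; simp only [Finset.mem_Ioc, Finset.notMem_empty, iff_false]; omega
      have e3 : Finset.Ioc m 0 = ∅ := by
        ext k; simp only [Finset.mem_Ioc, Finset.notMem_empty, iff_false]; omega
      rw [e1, e2, e3, Finset.prod_insert (by simp)]
      ring
    · have e1 : Finset.Ioc m 0 = insert (m + 1) (Finset.Ioc (m + 1) 0) := by
        ext k; simp only [Finset.mem_Ioc, Finset.mem_insert]; omega
      have e2 : Finset.Ioc 0 (m + 1) = ∅ := by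
        ext k; simp only [Finset.mem_Ioc, Finset.notMem_empty, iff_false]; omega
      have e3 : Finset.Ioc 0 m = ∅ := by
        ext k; simp only [Finset.mem_Ioc, Finset.notMem_empty, iff_false]; omega
      rw [e1, e2, e3, Finset.prod_insert (by simp)]
      have hsq : c (m + 1) * c (m + 1) = 1 := by
        rcases hc (m + 1) with h1 | h1 <;> rw [h1] <;> simp
      simp only [Finset.prod_empty, one_mul]
      rw [← mul_assoc, hsq, one_mul]

lemma exists_approx {c : ℤ → ℂ} (hc : ∀ n, c n = 1 ∨ c n = -1) {l : ℂ} {T : HH →L[ℂ] HH}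
    (hT : ∀ (x : HH) (n : ℤ), (T x) n = x (n + 1) + c n * x (n - 1))
    (hl : l ∈ spectrum ℂ T) {ε : ℝ} (hε : 0 < ε) :
    ∃ x : HH, x ≠ 0 ∧ ‖(algebraMap ℂ (HH →L[ℂ] HH) l - T) x‖ ≤ ε * ‖x‖ := by
  by_contra hcon
  push Not at hcon
  rw [spectrum.mem_iff] at hl
  apply hl
  set A : HH →L[ℂ] HH := algebraMap ℂ (HH →L[ℂ] HH) l - T with hA
  rw [ContinuousLinearMap.isUnit_iff_bijective,
    ContinuousLinearMap.bijective_iff_dense_range_and_antilipschitz]
  refine ⟨?_, ⟨⟨ε⁻¹, by positivity⟩, ?_⟩⟩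
  · rw [Submodule.topologicalClosure_eq_top_iff, Submodule.eq_bot_iff]
    intro y hy
    by_contra hy0
    obtain ⟨d, hd, hd1⟩ := exists_gauge c hc
    -- the orthogonality relations
    have horth : ∀ n : ℤ, (starRingEnd ℂ) (y (n - 1)) + c (n + 1) * (starRingEnd ℂ) (y (n + 1)) =
        l * (starRingEnd ℂ) (y n) := by
      intro n
      have h1 := hy (A (lp.single 2 n (1 : ℂ))) ⟨_, rfl⟩
      have h2 : A (lp.single 2 n (1 : ℂ)) = lp.single 2 n l - lp.single 2 (n - 1) (1 : ℂ)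
          - lp.single 2 (n + 1) (c (n + 1)) := by
        ext m
        rw [hA, res_apply, hT]
        simp only [lp.coeFn_sub, Pi.sub_apply, lp.single_apply, Pi.single_apply]
        by_cases h1 : m = n
        · subst h1
          have a1 : ¬ (m + 1 = m) := by omega
          have a2 : ¬ (m - 1 = m) := by omega
          have a3 : ¬ (m = m - 1) := by omega
          have a4 : ¬ (m = m + 1) := by omega
          simp [a1, a2, a3, a4]
        · by_cases h2 : m = n - 1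
          · subst h2
            have a1 : ¬ (n - 1 = n) := by omega
            have a2 : (n - 1 + 1 = n) := by omega
            have a3 : ¬ (n - 1 - 1 = n) := by omega
            have a4 : ¬ (n - 1 = n + 1) := by omega
            simp [a1, a2, a3, a4]
          · by_cases h3 : m = n + 1
            · subst h3
              have a1 : ¬ (n + 1 = n) := by omega
              have a2 : ¬ (n + 1 + 1 = n) := by omega
              have a3 : (n + 1 - 1 = n) := by omega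
              have a4 : ¬ (n + 1 = n - 1) := by omega
              simp [a1, a2, a3, a4]
            · have a1 : ¬ (m + 1 = n) := by omega
              have a2 : ¬ (m - 1 = n) := by omega
              simp [h1, h2, h3, a1, a2]
      rw [h2, inner_sub_left, inner_sub_left, lp.inner_single_left, lp.inner_single_left,
        lp.inner_single_left] at h1
      simp only [RCLike.inner_apply, map_one, mul_one] at h1
      have h3 := congrArg (starRingEnd ℂ) h1
      simp only [map_sub, map_mul, Complex.conj_conj, map_zero] at h3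
      linear_combination -h3
    have hxs : Summable (fun m : ℤ => ‖d m * (starRingEnd ℂ) (y m)‖ ^ 2) := by
      have : (fun m : ℤ => ‖d m * (starRingEnd ℂ) (y m)‖ ^ 2) = fun m => ‖y m‖ ^ 2 := by
        funext m
        rw [norm_mul, norm_sgn (hd m), one_mul, RCLike.norm_conj]
      rw [this]; exact summable_of_lp y
    set x : HH := ⟨fun m => d m * (starRingEnd ℂ) (y m), memlp_of_summable hxs⟩ with hx
    have hxm : ∀ m, x m = d m * (starRingEnd ℂ) (y m) := fun m => rfl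
    have hx0 : x ≠ 0 := by
      intro h
      apply hy0
      ext m
      have h1 : x m = 0 := by rw [h]; rfl
      rw [hxm] at h1
      have hdm : d m ≠ 0 := by rcases hd m with h | h <;> rw [h] <;> simp
      have h2 := (mul_eq_zero.mp h1).resolve_left hdm
      simpa using h2
    have hAx : A x = 0 := by
      ext m
      rw [hA, res_apply, hT, hxm, hxm, hxm]
      have e1 := hd1 m
      have e2 := hd1 (m - 1)
      rw [sub_add_cancel] at e2
      have hsq : c m * c m = 1 := by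
        rcases hc m with h1 | h1 <;> rw [h1] <;> simp
      have e3 : c m * d (m - 1) = d m := e2.symm
      rw [e1]
      have h4 := horth m
      show l * (d m * (starRingEnd ℂ) (y m)) - (c (m + 1) * d m * (starRingEnd ℂ) (y (m + 1)) +
        c m * (d (m - 1) * (starRingEnd ℂ) (y (m - 1)))) = 0
      linear_combination (-(d m)) * h4 - (starRingEnd ℂ) (y (m - 1)) * e3
    have h5 := hcon x hx0
    rw [hAx, norm_zero] at h5
    have : 0 ≤ ε * ‖x‖ := by positivity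
    linarith
  · apply A.antilipschitz_of_bound
    intro x
    by_cases hx : x = 0
    · simp [hx]
    · have h1 := (hcon x hx).le
      show ‖x‖ ≤ ε⁻¹ * ‖A x‖
      rw [inv_mul_eq_div, le_div_iff₀ hε]
      linarith

lemma summable_natAbs {θ : ℝ} (h0 : 0 ≤ θ) (h1 : θ < 1) :
    Summable (fun j : ℤ => θ ^ (2 * j.natAbs)) := by
  have hθ2 : θ ^ 2 < 1 := by nlinarith
  have hg : Summable (fun n : ℕ => (θ ^ 2) ^ n) := summable_geometric_of_lt_one (by positivity) hθ2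
  apply Summable.of_nat_of_neg
  · simpa [pow_mul] using hg
  · simpa [pow_mul] using hg

lemma exists_wmax {f : ℤ → ℝ} {g : ℤ → ℝ} (hg : Summable g) (hfg : ∀ m, f m ≤ g m) {m0 : ℤ}
    (h0 : 0 < f m0) : ∃ m1, ∀ m, f m ≤ f m1 := by
  have hfin : {m : ℤ | f m0 ≤ g m}.Finite := by
    have h1 := hg.tendsto_cofinite_zero
    have h2 : ∀ᶠ m in Filter.cofinite, g m < f m0 := h1.eventually (gt_mem_nhds h0)
    have h3 := Filter.eventually_cofinite.mp h2
    refine h3.subset ?_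
    intro m hm
    simp only [not_lt]
    exact hm
  have hne : hfin.toFinset.Nonempty := ⟨m0, by simp only [Set.Finite.mem_toFinset]; exact hfg m0⟩
  obtain ⟨m1, hm1, hmax⟩ := hfin.toFinset.exists_max_image f hne
  refine ⟨m1, fun m => ?_⟩
  by_cases hm : f m0 ≤ g m
  · exact hmax m (by simp only [Set.Finite.mem_toFinset]; exact hm)
  · push Not at hm
    have h1 := hmax m0 (by simp only [Set.Finite.mem_toFinset]; exact hfg m0)
    have h2 := hfg m
    linarith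

lemma window (N : ℕ) {δ : ℝ} (hδ : 0 < δ) : ∃ ε : ℝ, 0 < ε ∧ ∀ x : HH, x ≠ 0 → ∀ r : HH,
    ‖r‖ ≤ ε * ‖x‖ → ∃ m : ℤ, x m ≠ 0 ∧ ∀ j : ℤ, |j| ≤ N →
      ‖x (m + j)‖ ≤ 2 * ‖x m‖ ∧ ‖r (m + j)‖ ≤ δ * ‖x m‖ := by
  set θ : ℝ := 1 - 1 / (2 * (N + 1)) with hθ
  have hN1 : (0 : ℝ) < N + 1 := by positivity
  have hθ1 : θ < 1 := by
    have : (0 : ℝ) < 1 / (2 * (N + 1)) := by positivity
    linarith
  have hθ0 : 1 / 2 ≤ θ := by
    have : (1 : ℝ) / (2 * (N + 1)) ≤ 1 / 2 := by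
      apply one_div_le_one_div_of_le (by norm_num)
      have : (0 : ℝ) ≤ N := by positivity
      linarith
    linarith
  have hθpos : 0 < θ := by linarith
  have hθN : 1 / 2 ≤ θ ^ N := by
    have h1 := one_add_mul_le_pow (a := -(1 / (2 * ((N : ℝ) + 1)))) (by
      have : (1 : ℝ) / (2 * (N + 1)) ≤ 1 / 2 := by linarith
      linarith) N
    have h2 : (1 : ℝ) + -(1 / (2 * ((N : ℝ) + 1))) = θ := by rw [hθ]; ring
    rw [h2] at h1
    refine le_trans ?_ h1
    have h3 : (N : ℝ) * (1 / (2 * (N + 1))) ≤ 1 / 2 := by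
      rw [mul_one_div, div_le_div_iff₀ (by positivity) (by norm_num)]
      linarith
    linarith
  set S : ℝ := ∑' j : ℤ, θ ^ (2 * j.natAbs) with hS
  have hSs := summable_natAbs hθpos.le hθ1
  have hS0 : 0 ≤ S := tsum_nonneg (fun j => by positivity)
  refine ⟨δ / (4 * (S + 1)), by positivity, ?_⟩
  intro x hx0 r hr
  by_contra hcon
  push Not at hcon
  -- the pointwise estimate
  have hpt : ∀ m0 : ℤ, ∃ m' : ℤ, ‖x m0‖ ^ 2 ≤
      (4 / δ ^ 2) * (θ ^ (2 * (m' - m0).natAbs) * ‖r m'‖ ^ 2) := by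
    intro m0
    by_cases hxm0 : x m0 = 0
    · exact ⟨m0, by rw [hxm0]; simp; positivity⟩
    · have hpos : 0 < ‖x m0‖ := norm_pos_iff.mpr hxm0
      -- maximise the weighted square
      obtain ⟨m1, hm1⟩ := exists_wmax (f := fun m => ‖x m‖ ^ 2 * θ ^ (2 * (m - m0).natAbs))
        (g := fun m => ‖x m‖ ^ 2) (summable_of_lp x)
        (fun m => by
          have h1 : θ ^ (2 * (m - m0).natAbs) ≤ 1 := pow_le_one₀ hθpos.le hθ1.le
          nlinarith [sq_nonneg ‖x m‖])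
        (m0 := m0) (by simp; positivity)
      have hsqle : ∀ m, ‖x m‖ * θ ^ (m - m0).natAbs ≤ ‖x m1‖ * θ ^ (m1 - m0).natAbs := by
        intro m
        have h1 := hm1 m
        have h2 : (‖x m‖ * θ ^ (m - m0).natAbs) ^ 2 ≤ (‖x m1‖ * θ ^ (m1 - m0).natAbs) ^ 2 := by
          calc (‖x m‖ * θ ^ (m - m0).natAbs) ^ 2 = ‖x m‖ ^ 2 * θ ^ (2 * (m - m0).natAbs) := by ring
            _ ≤ ‖x m1‖ ^ 2 * θ ^ (2 * (m1 - m0).natAbs) := h1
            _ = (‖x m1‖ * θ ^ (m1 - m0).natAbs) ^ 2 := by ring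
        exact le_of_sq_le_sq h2 (by positivity)
      have h3 := hsqle m0
      simp only [sub_self, Int.natAbs_zero, pow_zero, mul_one] at h3
      have hx1 : x m1 ≠ 0 := by
        intro h
        rw [h] at h3
        simp at h3
        exact hxm0 h3
      have hx1pos : 0 < ‖x m1‖ := norm_pos_iff.mpr hx1
      have hcmp : ∀ j : ℤ, |j| ≤ N → θ ^ (m1 - m0).natAbs ≤ 2 * θ ^ (m1 + j - m0).natAbs := by
        intro j hj
        have h4 : (m1 + j - m0).natAbs ≤ (m1 - m0).natAbs + N := by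
          have := abs_le.mp hj
          omega
        have h5 : θ ^ ((m1 - m0).natAbs + N) ≤ θ ^ (m1 + j - m0).natAbs :=
          pow_le_pow_of_le_one hθpos.le hθ1.le h4
        rw [pow_add] at h5
        have h6 : 0 < θ ^ (m1 - m0).natAbs := by positivity
        nlinarith
      have hwin : ∀ j : ℤ, |j| ≤ N → ‖x (m1 + j)‖ ≤ 2 * ‖x m1‖ := by
        intro j hj
        have h4 := hsqle (m1 + j)
        have h5 := hcmp j hj
        have h6 : 0 < θ ^ (m1 + j - m0).natAbs := by positivity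
        have h7 : ‖x (m1 + j)‖ * θ ^ (m1 + j - m0).natAbs ≤
            (2 * ‖x m1‖) * θ ^ (m1 + j - m0).natAbs := by
          calc ‖x (m1 + j)‖ * θ ^ (m1 + j - m0).natAbs ≤ ‖x m1‖ * θ ^ (m1 - m0).natAbs := h4
            _ ≤ ‖x m1‖ * (2 * θ ^ (m1 + j - m0).natAbs) := by gcongr
            _ = (2 * ‖x m1‖) * θ ^ (m1 + j - m0).natAbs := by ring
        exact le_of_mul_le_mul_right h7 h6
      obtain ⟨j, hj, hj2⟩ := hcon m1 hx1
      have h8 := hj2 (hwin j hj)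
      refine ⟨m1 + j, ?_⟩
      have h9 : ‖x m0‖ ≤ (2 / δ) * (θ ^ (m1 + j - m0).natAbs * ‖r (m1 + j)‖) := by
        calc ‖x m0‖ ≤ ‖x m1‖ * θ ^ (m1 - m0).natAbs := h3
          _ ≤ (‖r (m1 + j)‖ / δ) * (2 * θ ^ (m1 + j - m0).natAbs) := by
              apply mul_le_mul _ (hcmp j hj) (by positivity) (by positivity)
              rw [le_div_iff₀ hδ]
              linarith
          _ = (2 / δ) * (θ ^ (m1 + j - m0).natAbs * ‖r (m1 + j)‖) := by ring
      calc ‖x m0‖ ^ 2 ≤ ((2 / δ) * (θ ^ (m1 + j - m0).natAbs * ‖r (m1 + j)‖)) ^ 2 := by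
            gcongr
        _ = (4 / δ ^ 2) * (θ ^ (2 * (m1 + j - m0).natAbs) * ‖r (m1 + j)‖ ^ 2) := by
            ring
  -- sum up, in ENNReal
  have hsum : ENNReal.ofReal (‖x‖ ^ 2) ≤ ENNReal.ofReal (4 / δ ^ 2 * (S * ‖r‖ ^ 2)) := by
    have ex : ENNReal.ofReal (‖x‖ ^ 2) = ∑' m : ℤ, ENNReal.ofReal (‖x m‖ ^ 2) := by
      rw [norm_sq_eq, ENNReal.ofReal_tsum_of_nonneg (fun m => by positivity) (summable_of_lp x)]
    have er : ENNReal.ofReal (‖r‖ ^ 2) = ∑' m : ℤ, ENNReal.ofReal (‖r m‖ ^ 2) := by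
      rw [norm_sq_eq, ENNReal.ofReal_tsum_of_nonneg (fun m => by positivity) (summable_of_lp r)]
    have eS : ENNReal.ofReal S = ∑' j : ℤ, ENNReal.ofReal (θ ^ (2 * j.natAbs)) := by
      rw [hS, ENNReal.ofReal_tsum_of_nonneg (fun m => by positivity) hSs]
    have hR : ENNReal.ofReal (4 / δ ^ 2 * (S * ‖r‖ ^ 2)) = ENNReal.ofReal (4 / δ ^ 2) *
        (ENNReal.ofReal S * ENNReal.ofReal (‖r‖ ^ 2)) := by
      rw [ENNReal.ofReal_mul (by positivity), ENNReal.ofReal_mul hS0]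
    rw [hR, ex]
    have hstep : ∀ m0 : ℤ, ENNReal.ofReal (‖x m0‖ ^ 2) ≤ ENNReal.ofReal (4 / δ ^ 2) *
        ∑' m' : ℤ, ENNReal.ofReal (θ ^ (2 * (m' - m0).natAbs)) * ENNReal.ofReal (‖r m'‖ ^ 2) := by
      intro m0
      obtain ⟨m', hm'⟩ := hpt m0
      calc ENNReal.ofReal (‖x m0‖ ^ 2) ≤ ENNReal.ofReal
            ((4 / δ ^ 2) * (θ ^ (2 * (m' - m0).natAbs) * ‖r m'‖ ^ 2)) :=
            ENNReal.ofReal_le_ofReal hm'
        _ = ENNReal.ofReal (4 / δ ^ 2) * (ENNReal.ofReal (θ ^ (2 * (m' - m0).natAbs)) *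
            ENNReal.ofReal (‖r m'‖ ^ 2)) := by
            rw [ENNReal.ofReal_mul (by positivity), ENNReal.ofReal_mul (by positivity)]
        _ ≤ _ := by
            gcongr
            exact ENNReal.le_tsum (f := fun m' : ℤ => ENNReal.ofReal (θ ^ (2 * (m' - m0).natAbs)) *
              ENNReal.ofReal (‖r m'‖ ^ 2)) m'
    calc ∑' m : ℤ, ENNReal.ofReal (‖x m‖ ^ 2) ≤ ∑' m0 : ℤ, ENNReal.ofReal (4 / δ ^ 2) *
          ∑' m' : ℤ, ENNReal.ofReal (θ ^ (2 * (m' - m0).natAbs)) * ENNReal.ofReal (‖r m'‖ ^ 2) :=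
          ENNReal.tsum_le_tsum hstep
      _ = ENNReal.ofReal (4 / δ ^ 2) * ∑' m0 : ℤ, ∑' m' : ℤ,
          ENNReal.ofReal (θ ^ (2 * (m' - m0).natAbs)) * ENNReal.ofReal (‖r m'‖ ^ 2) := by
          rw [ENNReal.tsum_mul_left]
      _ = ENNReal.ofReal (4 / δ ^ 2) * ∑' m' : ℤ, ∑' m0 : ℤ,
          ENNReal.ofReal (θ ^ (2 * (m' - m0).natAbs)) * ENNReal.ofReal (‖r m'‖ ^ 2) := by
          rw [ENNReal.tsum_comm]
      _ = ENNReal.ofReal (4 / δ ^ 2) * ∑' m' : ℤ,
          ENNReal.ofReal S * ENNReal.ofReal (‖r m'‖ ^ 2) := by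
          congr 1
          apply tsum_congr
          intro m'
          rw [ENNReal.tsum_mul_right, eS]
          congr 1
          exact (Equiv.subLeft m').tsum_eq (fun j : ℤ => ENNReal.ofReal (θ ^ (2 * j.natAbs)))
      _ = _ := by rw [ENNReal.tsum_mul_left, er]
  have hfinal : ‖x‖ ^ 2 ≤ 4 / δ ^ 2 * (S * ‖r‖ ^ 2) := by
    rwa [ENNReal.ofReal_le_ofReal_iff (by positivity)] at hsum
  have hxpos : 0 < ‖x‖ := norm_pos_iff.mpr hx0
  have h10 : ‖r‖ ^ 2 ≤ (δ / (4 * (S + 1)) * ‖x‖) ^ 2 := by gcongr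
  have h11 : 4 / δ ^ 2 * (S * ‖r‖ ^ 2) ≤ 4 / δ ^ 2 * (S * (δ / (4 * (S + 1)) * ‖x‖) ^ 2) := by
    gcongr
  have h12 : 4 / δ ^ 2 * (S * (δ / (4 * (S + 1)) * ‖x‖) ^ 2) = S / (4 * (S + 1) ^ 2) * ‖x‖ ^ 2 := by
    field_simp
  have h13 : S / (4 * (S + 1) ^ 2) < 1 := by
    rw [div_lt_one (by positivity)]
    nlinarith
  have h14 : S / (4 * (S + 1) ^ 2) * ‖x‖ ^ 2 < 1 * ‖x‖ ^ 2 := by
    gcongr
  linarith

/-- `l` has a normalised bounded generalised eigenfunction for some sign sequence. -/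
def BS (l : ℂ) : Prop :=
  ∃ c φ : ℤ → ℂ, (∀ m, c m = 1 ∨ c m = -1) ∧
    (∀ m, φ (m + 1) + c m * φ (m - 1) = l * φ m) ∧ φ 0 = 1 ∧ ∀ m, ‖φ m‖ ≤ 2

lemma bs_of_windows (l : ℂ) (h : ∀ N : ℕ, ∃ c φ : ℤ → ℂ, (∀ m, c m = 1 ∨ c m = -1) ∧ φ 0 = 1 ∧
    (∀ m : ℤ, |m| ≤ (N : ℤ) → ‖φ m‖ ≤ 2) ∧
    ∀ m : ℤ, |m| + 1 ≤ (N : ℤ) → ‖φ (m + 1) + c m * φ (m - 1) - l * φ m‖ ≤ 1 / ((N : ℝ) + 1)) : BS l := by
  classical
  let K : Set ((ℤ → ℂ) × (ℤ → ℂ)) :=
    (Set.univ.pi (fun _ : ℤ => ({1, -1} : Set ℂ))) ×ˢ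
      (Set.univ.pi (fun _ : ℤ => Metric.closedBall (0 : ℂ) 2))
  have hK : IsCompact K := by
    apply IsCompact.prod
    · exact isCompact_univ_pi (fun _ => (Set.toFinite _).isCompact)
    · exact isCompact_univ_pi (fun _ => isCompact_closedBall _ _)
  let F : ℕ → Set ((ℤ → ℂ) × (ℤ → ℂ)) := fun N =>
    K ∩ ({p | p.2 0 = 1} ∩ ⋂ m : ℤ, ⋂ (_ : |m| + 1 ≤ (N : ℤ)),
      {p | ‖p.2 (m + 1) + p.1 m * p.2 (m - 1) - l * p.2 m‖ ≤ 1 / ((N : ℝ) + 1)})
  have hFcl : ∀ N, IsClosed (F N) := by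
    intro N
    refine hK.isClosed.inter (IsClosed.inter ?_ ?_)
    · exact isClosed_eq (by fun_prop) continuous_const
    · refine isClosed_iInter fun m => isClosed_iInter fun _ => ?_
      exact isClosed_le (by fun_prop) continuous_const
  have hFne : ∀ N, (F N).Nonempty := by
    intro N
    obtain ⟨c, φ, hc, h0, hb, hr⟩ := h N
    refine ⟨(c, fun m => if |m| ≤ (N : ℤ) then φ m else 0), ⟨⟨?_, ?_⟩, ?_, ?_⟩⟩
    · intro m _
      rcases hc m with h1 | h1 <;> simp [h1]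
    · intro m _
      simp only
      split_ifs with hm
      · simpa using hb m hm
      · simp
    · have : |(0 : ℤ)| ≤ (N : ℤ) := by simp
      show (if |(0 : ℤ)| ≤ (N : ℤ) then φ 0 else 0) = 1
      rw [if_pos this, h0]
    · simp only [Set.mem_iInter]
      intro m hm
      have h1 : |m + 1| ≤ (N : ℤ) := by
        have := abs_add_le m 1
        simp only [abs_one] at this
        omega
      have h2 : |m - 1| ≤ (N : ℤ) := by
        have := abs_sub m 1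
        simp only [abs_one] at this
        omega
      have h3 : |m| ≤ (N : ℤ) := by omega
      show ‖(if |m + 1| ≤ (N : ℤ) then φ (m + 1) else 0) + c m * (if |m - 1| ≤ (N : ℤ) then
        φ (m - 1) else 0) - l * (if |m| ≤ (N : ℤ) then φ m else 0)‖ ≤ 1 / ((N : ℝ) + 1)
      rw [if_pos h1, if_pos h2, if_pos h3]
      exact hr m hm
  have hFmono : ∀ N, F (N + 1) ⊆ F N := by
    rintro N p ⟨hp1, hp2, hp3⟩
    refine ⟨hp1, hp2, ?_⟩
    simp only [Set.mem_iInter] at hp3 ⊢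
    intro m hm
    have h1 : ‖p.2 (m + 1) + p.1 m * p.2 (m - 1) - l * p.2 m‖ ≤ 1 / (((N + 1 : ℕ) : ℝ) + 1) :=
      hp3 m (by push_cast; omega)
    refine le_trans h1 ?_
    apply one_div_le_one_div_of_le (by positivity)
    push_cast
    linarith
  have hF0 : IsCompact (F 0) := hK.inter_right (by
    refine IsClosed.inter ?_ ?_
    · exact isClosed_eq (by fun_prop) continuous_const
    · refine isClosed_iInter fun m => isClosed_iInter fun _ => ?_
      exact isClosed_le (by fun_prop) continuous_const)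
  obtain ⟨⟨c, φ⟩, hp⟩ :=
    IsCompact.nonempty_iInter_of_sequence_nonempty_isCompact_isClosed F hFmono hFne hF0 hFcl
  simp only [Set.mem_iInter] at hp
  obtain ⟨⟨hc, hφ⟩, h0, _⟩ := hp 0
  refine ⟨c, φ, ?_, ?_, h0, ?_⟩
  · intro m
    have := hc m (Set.mem_univ _)
    simpa using this
  · intro m
    have hle : ∀ N : ℕ, |m| + 1 ≤ (N : ℤ) →
        ‖φ (m + 1) + c m * φ (m - 1) - l * φ m‖ ≤ 1 / ((N : ℝ) + 1) := by
      intro N hN
      have := (hp N).2.2
      simp only [Set.mem_iInter] at this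
      exact this m hN
    have hz : ‖φ (m + 1) + c m * φ (m - 1) - l * φ m‖ ≤ 0 := by
      apply ge_of_tendsto tendsto_one_div_add_atTop_nhds_zero_nat
      filter_upwards [Filter.eventually_ge_atTop (m.natAbs + 1)] with N hN
      exact hle N (by have := Int.abs_eq_natAbs m; omega)
    exact sub_eq_zero.mp (norm_le_zero_iff.mp hz)
  · intro m
    have := hφ m (Set.mem_univ _)
    simpa using this

lemma bs_of_spectrum {c : ℤ → ℂ} (hc : ∀ n, c n = 1 ∨ c n = -1) {l : ℂ} {T : HH →L[ℂ] HH}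
    (hT : ∀ (x : HH) (n : ℤ), (T x) n = x (n + 1) + c n * x (n - 1))
    (hl : l ∈ spectrum ℂ T) : BS l := by
  apply bs_of_windows
  intro N
  obtain ⟨ε, hε, hwin⟩ := window N (δ := 1 / ((N : ℝ) + 1)) (by positivity)
  obtain ⟨x, hx0, hx⟩ := exists_approx hc hT hl hε
  obtain ⟨m, hm0, hm⟩ := hwin x hx0 _ hx
  have hpos : 0 < ‖x m‖ := norm_pos_iff.mpr hm0
  refine ⟨fun j => c (m + j), fun j => x (m + j) / x m, fun j => hc _, ?_, ?_, ?_⟩
  · simp only [add_zero]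
    exact div_self hm0
  · intro j hj
    have h1 := (hm j hj).1
    rw [norm_div, div_le_iff₀ hpos]
    exact h1
  · intro j hj
    have h1 := (hm j (by omega)).2
    rw [res_apply, hT] at h1
    have e : x (m + (j + 1)) / x m + c (m + j) * (x (m + (j - 1)) / x m) - l * (x (m + j) / x m) =
        -(l * x (m + j) - (x (m + j + 1) + c (m + j) * x (m + j - 1))) / x m := by
      have e1 : m + (j + 1) = m + j + 1 := by ring
      have e2 : m + (j - 1) = m + j - 1 := by ring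
      rw [e1, e2]
      field_simp
      ring
    rw [e, norm_div, norm_neg, div_le_iff₀ hpos]
    exact h1

lemma norm_le_two_of_bs {l : ℂ} (h : BS l) : ‖l‖ ≤ 2 := by
  obtain ⟨c, φ, hc, hs, h0, hb⟩ := h
  -- the supremum of the norms
  set B : ℝ := ⨆ m, ‖φ m‖ with hB
  have hbdd : BddAbove (Set.range fun m => ‖φ m‖) := ⟨2, by rintro _ ⟨m, rfl⟩; exact hb m⟩
  have hle : ∀ m, ‖φ m‖ ≤ B := fun m => le_ciSup hbdd m
  have hB1 : 1 ≤ B := by
    have := hle 0
    rw [h0, norm_one] at this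
    exact this
  have h1 : ∀ m, ‖l‖ * ‖φ m‖ ≤ 2 * B := by
    intro m
    rw [← norm_mul, ← hs m]
    refine (norm_add_le _ _).trans ?_
    rw [norm_mul, norm_sgn (hc m), one_mul]
    linarith [hle (m + 1), hle (m - 1)]
  have h2 : ‖l‖ * B ≤ 2 * B := by
    by_cases hl : ‖l‖ = 0
    · rw [hl]; linarith
    · have hlpos : 0 < ‖l‖ := lt_of_le_of_ne (norm_nonneg _) (Ne.symm hl)
      have h3 : B ≤ 2 * B / ‖l‖ := by
        apply ciSup_le
        intro m
        rw [le_div_iff₀ hlpos]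
        linarith [h1 m]
      rw [le_div_iff₀ hlpos] at h3
      linarith
  nlinarith

end Pool.Agent.FZ
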