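import Mathlib
import Pool.Agent.helper30.FZ.Defs
import Pool.Agent.helper30.FZ.Operator
import Pool.Agent.helper30.FZ.Cocycle

set_option autoImplicit false

noncomputable section

namespace Pool.Agent.FZ

/-- Away from the bounded eigenfunctions all multipliers are uniformly hyperbolic. -/
lemma uniform_of_not_bs {l : ℂ} (h : ¬ BS l) : ∃ η : ℝ, 0 < η ∧ ∀ c : ℕ → ℂ,
    (∀ k, c k = 1 ∨ c k = -1) → ∀ n : ℕ, 1 ≤ n → ∀ μ : ℂ,
      μ ^ 2 - (mat c l n).trace * μ + (mat c l n).det = 0 → η * n ≤ |Real.log ‖μ‖| := by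
  by_contra hcon
  push Not at hcon
  apply h
  apply bs_of_windows
  intro N
  have hlog2 : 0 < Real.log 2 := Real.log_pos (by norm_num)
  obtain ⟨c, hc, n, hn, μ, hμ, hlt⟩ := hcon (Real.log 2 / ((N : ℝ) + 1)) (by positivity)
  obtain ⟨hμ0, c', φ, hc', _, hs, h0, hb⟩ := exists_bloch hc hn hμ
  have hnpos : (0 : ℝ) < n := by exact_mod_cast hn
  refine ⟨c', φ, hc', h0, ?_, ?_⟩
  · intro m hm
    refine (hb m).trans ?_
    have hm' : |(m : ℝ)| ≤ N := by exact_mod_cast hm
    have h1 : Real.log ‖μ‖ / n * m ≤ Real.log 2 := by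
      calc Real.log ‖μ‖ / n * m ≤ |Real.log ‖μ‖ / n * m| := le_abs_self _
        _ = |Real.log ‖μ‖| / n * |(m : ℝ)| := by rw [abs_mul, abs_div, abs_of_pos hnpos]
        _ ≤ (Real.log 2 / ((N : ℝ) + 1) * n) / n * N := by gcongr
        _ = Real.log 2 * (N / ((N : ℝ) + 1)) := by field_simp
        _ ≤ Real.log 2 * 1 := by
            gcongr
            rw [div_le_one (by positivity)]
            linarith
        _ = Real.log 2 := mul_one _
    calc Real.exp (Real.log ‖μ‖ / n * m) ≤ Real.exp (Real.log 2) := Real.exp_le_exp.mpr h1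
      _ = 2 := Real.exp_log (by norm_num)
  · intro m _
    rw [hs m, sub_self, norm_zero]
    positivity

lemma mem_hopping_iff {l : ℂ} : l ∈ hoppingSpectrum ↔ BS l := by
  constructor
  · rintro ⟨c, hc, T, hT, hl⟩
    exact bs_of_spectrum hc hT hl
  · rintro ⟨c, φ, hc, hs, h0, hb⟩
    obtain ⟨T, hT⟩ := exists_op c hc
    exact ⟨c, hc, T, hT, mem_spectrum_of_bounded hc hs hb (by rw [h0]; exact one_ne_zero) hT⟩

lemma key {a : ℂ} {R : ℝ} (hR : 0 < R) (hball : Metric.ball a R ⊆ periodicPartᶜ)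
    (ha : a ∉ hoppingSpectrum) {z : ℂ} (hz : z ∈ Metric.ball a (R / 2)) :
    z ∉ hoppingSpectrum := by
  rw [mem_hopping_iff] at ha ⊢
  obtain ⟨η, hη, hU⟩ := uniform_of_not_bs ha
  rintro ⟨c, φ, hc, hs, h0, hb⟩
  refine not_bs_of_ug ⟨η / 3, by positivity, ?_⟩ hc hs h0 hb
  intro b hbs n hn
  have hdet : ∀ w, (mat b w n).det = (mat b a n).det := fun w => det_mat_const b w a n
  have hd : ‖(mat b a n).det‖ = 1 := by
    rcases det_mat hbs a n with h | h <;> rw [h] <;> simp
  obtain ⟨μ, hμ1, hμ2⟩ := harnack (t := fun w => (mat b w n).trace) (d := (mat b a n).det)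
    (E := η * n) hR (differentiable_trace b n).differentiableOn hd
    (by
      intro w hw μ hμ h1
      rw [← hdet w] at hμ
      obtain ⟨hμ0, c', ψ, hc', hper, hs', h0', hb'⟩ := exists_bloch hbs hn hμ
      obtain ⟨T, hT⟩ := exists_op c' hc'
      refine hball hw (subset_closure ⟨c', hc', ⟨n, hn, hper⟩, T, hT, ?_⟩)
      refine mem_spectrum_of_bounded hc' hs' (B := 1) (fun m => ?_)
        (by rw [h0']; exact one_ne_zero) hT
      refine (hb' m).trans ?_
      rw [h1, Real.log_one, zero_div, zero_mul, Real.exp_zero])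
    (fun μ hμ => hU b hbs n hn μ hμ) hz
  refine ⟨μ, ?_, ?_⟩
  · rw [hdet z]; exact hμ1
  · calc η / 3 * n = η * n / 3 := by ring
      _ ≤ _ := hμ2

theorem dichotomy {z : ℂ} (hz : z ∈ hoppingSpectrum) (hz' : z ∉ periodicPart) :
    connectedComponentIn periodicPartᶜ z ⊆ hoppingSpectrum ∧
      Bornology.IsBounded (connectedComponentIn periodicPartᶜ z) := by
  have hopen : IsOpen periodicPartᶜ := isClosed_closure.isOpen_compl
  have hU1 : IsOpen (periodicPartᶜ ∩ hoppingSpectrum) := by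
    rw [Metric.isOpen_iff]
    rintro w ⟨hw1, hw2⟩
    obtain ⟨R, hR, hball⟩ := Metric.isOpen_iff.mp hopen w hw1
    refine ⟨R / 4, by positivity, ?_⟩
    intro u hu
    rw [Metric.mem_ball] at hu
    refine ⟨hball (Metric.mem_ball.mpr (by linarith)), ?_⟩
    by_contra hcon
    have h1 : Metric.ball u (R / 2) ⊆ periodicPartᶜ := by
      intro v hv
      apply hball
      rw [Metric.mem_ball] at hv ⊢
      have := dist_triangle v u w
      linarith
    have h2 : w ∈ Metric.ball u (R / 2 / 2) := by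
      rw [Metric.mem_ball, dist_comm]
      linarith
    exact key (by positivity) h1 hcon h2 hw2
  have hU2 : IsOpen (periodicPartᶜ ∩ hoppingSpectrumᶜ) := by
    rw [Metric.isOpen_iff]
    rintro w ⟨hw1, hw2⟩
    obtain ⟨R, hR, hball⟩ := Metric.isOpen_iff.mp hopen w hw1
    refine ⟨R / 2, by positivity, ?_⟩
    intro u hu
    refine ⟨hball (Metric.ball_subset_ball (by linarith) hu), ?_⟩
    exact key hR hball hw2 hu
  have hsub : connectedComponentIn periodicPartᶜ z ⊆ periodicPartᶜ ∩ hoppingSpectrum := by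
    apply IsPreconnected.subset_left_of_subset_union hU1 hU2
    · rw [Set.disjoint_left]
      rintro u ⟨_, h1⟩ ⟨_, h2⟩
      exact h2 h1
    · intro u hu
      have := connectedComponentIn_subset _ _ hu
      by_cases h : u ∈ hoppingSpectrum
      · exact Or.inl ⟨this, h⟩
      · exact Or.inr ⟨this, h⟩
    · exact ⟨z, mem_connectedComponentIn hz', hz', hz⟩
    · exact isPreconnected_connectedComponentIn
  refine ⟨hsub.trans Set.inter_subset_right, ?_⟩
  apply Metric.isBounded_closedBall (x := (0 : ℂ)) (r := 2) |>.subset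
  intro u hu
  rw [mem_closedBall_zero_iff]
  exact norm_le_two_of_bs (mem_hopping_iff.mp (hsub hu).2)

end Pool.Agent.FZ
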